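import Pool.Agent.H83.Ord.Basic

set_option autoImplicit false

/-!
# Burns and Hale: locally indicable groups are right-orderable
-/

namespace Pool.Agent.H83.Ord

section

variable {G : Type} [Group G]

/-- `x` or its inverse, according to a sign. -/
def signed (e : G → Bool) (x : G) : G := if e x = true then x else x⁻¹

/-- Finite sets of non-trivial elements of a locally indicable group admit signs such that the
semigroup generated by the signed elements misses the identity. -/
lemma exists_signs (hG : LocallyIndicable G) : ∀ (n : ℕ) (S : Finset G), S.card ≤ n → (1 : G) ∉ S →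
    ∃ e : G → Bool, (1 : G) ∉ Subsemigroup.closure ((signed e) '' (S : Set G)) := by
  classical
  intro n
  induction n with
  | zero =>
    intro S hS _
    have : S = ∅ := Finset.card_eq_zero.1 (Nat.le_zero.1 hS)
    subst this
    refine ⟨fun _ => true, ?_⟩
    rw [Finset.coe_empty, Set.image_empty, Subsemigroup.closure_empty]
    exact Subsemigroup.notMem_bot
  | succ n ih =>
    intro S hS h1S
    by_cases hemp : S = ∅
    · subst hemp
      refine ⟨fun _ => true, ?_⟩
      rw [Finset.coe_empty, Set.image_empty, Subsemigroup.closure_empty]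
      exact Subsemigroup.notMem_bot
    obtain ⟨x0, hx0⟩ := Finset.nonempty_iff_ne_empty.2 hemp
    let H : Subgroup G := Subgroup.closure (S : Set G)
    have hSH : ∀ x ∈ S, x ∈ H := fun x hx => Subgroup.subset_closure hx
    have hH : H ≠ ⊥ := by
      intro h
      have := hSH x0 hx0
      rw [h, Subgroup.mem_bot] at this
      exact h1S (this ▸ hx0)
    obtain ⟨f, hf⟩ := hG H ⟨S, rfl⟩ hH
    -- value of `f` on elements of `G`
    let v : G → ℤ := fun x => if h : x ∈ H then Multiplicative.toAdd (f ⟨x, h⟩) else 0
    have hv : ∀ x (h : x ∈ H), v x = Multiplicative.toAdd (f ⟨x, h⟩) := fun x h => dif_pos h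
    have hvmul : ∀ x y, x ∈ H → y ∈ H → v (x * y) = v x + v y := by
      intro x y hx hy
      rw [hv x hx, hv y hy, hv (x * y) (H.mul_mem hx hy), ← toAdd_mul, ← map_mul]; rfl
    have hvinv : ∀ x, x ∈ H → v x⁻¹ = - v x := by
      intro x hx
      rw [hv x hx, hv x⁻¹ (H.inv_mem hx), ← toAdd_inv, ← map_inv]; rfl
    have hv1 : v 1 = 0 := by
      rw [hv 1 H.one_mem]
      have : f ⟨1, H.one_mem⟩ = 1 := map_one f
      rw [this]; rfl
    have hex : ∃ x ∈ S, v x ≠ 0 := by
      by_contra hcon
      push Not at hcon
      have hall : ∀ x ∈ H, v x = 0 := by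
        intro x hx
        induction hx using Subgroup.closure_induction with
        | mem x hx => exact hcon x hx
        | one => exact hv1
        | mul x y hx hy ihx ihy => rw [hvmul x y hx hy, ihx, ihy, add_zero]
        | inv x hx ih => rw [hvinv x hx, ih, neg_zero]
      obtain ⟨y, hy⟩ := hf (Multiplicative.ofAdd 1)
      have h2 := hall y.1 y.2
      rw [hv y.1 y.2] at h2
      have h3 : (⟨y.1, y.2⟩ : H) = y := rfl
      rw [h3, hy] at h2
      exact one_ne_zero h2
    obtain ⟨x1, hx1, hvx1⟩ := hex
    let S0 : Finset G := S.filter (fun x => v x = 0)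
    have hS0 : S0.card ≤ n := by
      have hlt : S0.card < S.card := by
        apply Finset.card_lt_card
        refine ⟨Finset.filter_subset _ _, fun hsub => hvx1 ?_⟩
        exact (Finset.mem_filter.1 (hsub hx1)).2
      omega
    obtain ⟨e0, he0⟩ := ih S0 hS0 (fun h => h1S (Finset.mem_filter.1 h).1)
    let e : G → Bool := fun x => if v x = 0 then e0 x else decide (0 < v x)
    refine ⟨e, ?_⟩
    have key : ∀ y ∈ Subsemigroup.closure ((signed e) '' (S : Set G)), y ∈ H ∧
        (0 < v y ∨ (v y = 0 ∧ y ∈ Subsemigroup.closure ((signed e0) '' (S0 : Set G)))) := by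
      intro y hy
      induction hy using Subsemigroup.closure_induction with
      | mem y hy =>
        obtain ⟨x, hx, rfl⟩ := hy
        have hxS : x ∈ S := hx
        have hxH := hSH x hxS
        by_cases hvx : v x = 0
        · have he : e x = e0 x := if_pos hvx
          have hs : signed e x = signed e0 x := by unfold signed; rw [he]
          have hmem : signed e0 x ∈ Subsemigroup.closure ((signed e0) '' (S0 : Set G)) :=
            Subsemigroup.subset_closure ⟨x, Finset.mem_coe.2 (Finset.mem_filter.2 ⟨hxS, hvx⟩), rfl⟩
          have hv0 : v (signed e x) = 0 ∧ signed e x ∈ H := by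
            unfold signed
            split_ifs
            · exact ⟨hvx, hxH⟩
            · exact ⟨by rw [hvinv x hxH, hvx, neg_zero], H.inv_mem hxH⟩
          exact ⟨hv0.2, Or.inr ⟨hv0.1, hs ▸ hmem⟩⟩
        · have he : e x = decide (0 < v x) := if_neg hvx
          unfold signed
          rw [he]
          by_cases hpos : 0 < v x
          · rw [if_pos (decide_eq_true hpos)]
            exact ⟨hxH, Or.inl hpos⟩
          · have hneg : ¬ (decide (0 < v x) = true) := by simpa using hpos
            rw [if_neg hneg]
            refine ⟨H.inv_mem hxH, Or.inl ?_⟩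
            rw [hvinv x hxH]
            omega
      | mul x y hx hy ihx ihy =>
        obtain ⟨hxH, hx'⟩ := ihx
        obtain ⟨hyH, hy'⟩ := ihy
        refine ⟨H.mul_mem hxH hyH, ?_⟩
        rw [hvmul x y hxH hyH]
        rcases hx' with hx' | ⟨hx0, hxc⟩
        · rcases hy' with hy' | ⟨hy0, hyc⟩
          · left; omega
          · left; omega
        · rcases hy' with hy' | ⟨hy0, hyc⟩
          · left; omega
          · right
            exact ⟨by omega, Subsemigroup.mul_mem _ hxc hyc⟩
    intro h1
    rcases (key 1 h1).2 with h | h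
    · rw [hv1] at h; exact lt_irrefl _ h
    · exact he0 h.2

/-- Burns and Hale: locally indicable groups are right-orderable. -/
theorem LocallyIndicable.rightOrderable (hG : LocallyIndicable G) : RightOrderable G := by
  classical
  -- signs for every finite set
  have hS : ∀ S : Finset G, ∃ e : G → Bool,
      (1 : G) ∉ Subsemigroup.closure ((signed e) '' ((S.erase 1 : Finset G) : Set G)) :=
    fun S => exists_signs hG _ (S.erase 1) le_rfl (Finset.notMem_erase 1 S)
  choose eS heS using hS
  let U : Ultrafilter (Finset G) := Ultrafilter.of Filter.atTop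
  have hU : (U : Filter (Finset G)) ≤ Filter.atTop := Ultrafilter.of_le _
  let e : G → Bool := fun x => decide (∀ᶠ S in (U : Filter (Finset G)), eS S x = true)
  have he : ∀ x, ∀ᶠ S in (U : Filter (Finset G)), eS S x = e x := by
    intro x
    by_cases h : ∀ᶠ S in (U : Filter (Finset G)), eS S x = true
    · have : e x = true := decide_eq_true h
      rw [this]; exact h
    · have h2 : e x = false := decide_eq_false h
      rw [h2]
      have h3 := (Ultrafilter.eventually_not (f := U)).2 h
      exact h3.mono (fun S hSx => by simpa using hSx)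
  have hfin : ∀ T : Finset G, (1 : G) ∉ T →
      (1 : G) ∉ Subsemigroup.closure ((signed e) '' (T : Set G)) := by
    intro T hT
    have h1 : ∀ᶠ S in (U : Filter (Finset G)), ∀ x ∈ T, eS S x = e x :=
      (Filter.eventually_all_finset T).2 (fun x _ => he x)
    have h2 : ∀ᶠ S in (U : Filter (Finset G)), T ≤ S := hU (Filter.eventually_ge_atTop T)
    obtain ⟨S, hS1, hS2⟩ := (h1.and h2).exists
    intro hcon
    apply heS S
    refine Subsemigroup.closure_mono ?_ hcon
    rintro y ⟨x, hx, rfl⟩
    have hxT : x ∈ T := hx
    refine ⟨x, ?_, ?_⟩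
    · refine Finset.mem_coe.2 (Finset.mem_erase.2 ⟨?_, hS2 hxT⟩)
      rintro rfl
      exact hT hxT
    · unfold signed; rw [hS1 x hxT]
  -- the positive cone
  let P : G → Prop := fun x => x ≠ 1 ∧ e x = true
  have hinv : ∀ x : G, x ≠ 1 → (¬ P x ↔ P x⁻¹) := by
    intro x hx
    have hx' : x⁻¹ ≠ 1 := inv_ne_one.2 hx
    have hc := hfin {x, x⁻¹} (by
      rw [Finset.mem_insert, Finset.mem_singleton]
      rintro (h | h)
      · exact hx h.symm
      · exact hx' h.symm)
    have mem1 : signed e x ∈ Subsemigroup.closure ((signed e) '' (({x, x⁻¹} : Finset G) : Set G)) :=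
      Subsemigroup.subset_closure ⟨x, by simp, rfl⟩
    have mem2 : signed e x⁻¹ ∈ Subsemigroup.closure ((signed e) '' (({x, x⁻¹} : Finset G) : Set G)) :=
      Subsemigroup.subset_closure ⟨x⁻¹, by simp, rfl⟩
    have hprod := Subsemigroup.mul_mem _ mem1 mem2
    constructor
    · intro hn
      refine ⟨hx', ?_⟩
      by_contra h2
      have h1 : ¬ e x = true := fun h => hn ⟨hx, h⟩
      unfold signed at hprod
      rw [if_neg h1, if_neg h2, inv_inv, inv_mul_cancel] at hprod
      exact hc hprod
    · rintro ⟨-, h2⟩ ⟨-, h1⟩
      unfold signed at hprod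
      rw [if_pos h1, if_pos h2, mul_inv_cancel] at hprod
      exact hc hprod
  have hmul : ∀ x y : G, P x → P y → P (x * y) := by
    intro x y hx hy
    have hxy : x * y ≠ 1 := by
      intro h
      have h2 : y = x⁻¹ := eq_inv_of_mul_eq_one_right h
      rw [h2] at hy
      exact ((hinv x hx.1).2 hy) hx
    by_contra hn
    have hn' : ¬ e (x * y) = true := fun h => hn ⟨hxy, h⟩
    have hc := hfin {x, y, x * y} (by
      simp only [Finset.mem_insert, Finset.mem_singleton, not_or]
      exact ⟨fun h => hx.1 h.symm, fun h => hy.1 h.symm, fun h => hxy h.symm⟩)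
    have mem1 : signed e x ∈ Subsemigroup.closure ((signed e) '' (({x, y, x * y} : Finset G) : Set G)) :=
      Subsemigroup.subset_closure ⟨x, by simp, rfl⟩
    have mem2 : signed e y ∈ Subsemigroup.closure ((signed e) '' (({x, y, x * y} : Finset G) : Set G)) :=
      Subsemigroup.subset_closure ⟨y, by simp, rfl⟩
    have mem3 : signed e (x * y) ∈
        Subsemigroup.closure ((signed e) '' (({x, y, x * y} : Finset G) : Set G)) :=
      Subsemigroup.subset_closure ⟨x * y, by simp, rfl⟩
    have hprod := Subsemigroup.mul_mem _ (Subsemigroup.mul_mem _ mem1 mem2) mem3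
    unfold signed at hprod
    rw [if_pos hx.2, if_pos hy.2, if_neg hn', mul_inv_cancel] at hprod
    exact hc hprod
  let r : G → G → Prop := fun x y => P (y * x⁻¹)
  have hirr : ∀ x, ¬ r x x := by
    intro x h
    have h' : P (x * x⁻¹) := h
    rw [mul_inv_cancel] at h'
    exact h'.1 rfl
  have htrans : ∀ x y z, r x y → r y z → r x z := by
    intro x y z hxy hyz
    have h : P ((z * y⁻¹) * (y * x⁻¹)) := hmul _ _ hyz hxy
    have h2 : (z * y⁻¹) * (y * x⁻¹) = z * x⁻¹ := by group
    rw [h2] at h
    exact h
  have htri : ∀ x y, r x y ∨ x = y ∨ r y x := by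
    intro x y
    by_cases hxy : x = y
    · exact Or.inr (Or.inl hxy)
    · by_cases h : P (y * x⁻¹)
      · exact Or.inl h
      · right; right
        have hne : y * x⁻¹ ≠ 1 := fun h => hxy (mul_inv_eq_one.1 h).symm
        have h2 := (hinv _ hne).1 h
        have h3 : (y * x⁻¹)⁻¹ = x * y⁻¹ := by group
        rw [h3] at h2
        exact h2
  haveI hsto : IsStrictTotalOrder G r :=
    { irrefl := hirr
      trans := htrans
      trichotomous := by
        intro x y h1 h2
        rcases htri x y with h | h | h
        · exact absurd h h1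
        · exact h
        · exact absurd h h2 }
  haveI : DecidableRel r := Classical.decRel r
  refine ⟨linearOrderOfSTO r, ?_⟩
  intro x y z hxy
  rcases hxy with hxy | hxy
  · left; rw [hxy]
  · right
    show P (y * z * (x * z)⁻¹)
    have : y * z * (x * z)⁻¹ = y * x⁻¹ := by group
    rw [this]
    exact hxy

end

end Pool.Agent.H83.Ord
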