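import Pool.Agent.H83.Ord.Sub
import Pool.Agent.H83.Ord.BurnsHale

set_option autoImplicit false

/-!
# Quasi-identities and the final assembly
-/

namespace Pool.Agent.H83.Ord

/-- A quasi-identity in the language of groups: finitely many premises `u = 1` and one conclusion
`w = 1`, where the `u` and `w` are group words in the variables `0, …, vars - 1`. -/
structure QuasiIdentity where
  /-- the number of variables -/
  vars : ℕ
  /-- the premises -/
  premises : List (FreeGroup (Fin vars))
  /-- the conclusion -/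
  conclusion : FreeGroup (Fin vars)

/-- A quasi-identity holds in `G` if every assignment satisfying all premises satisfies the
conclusion. -/
def QuasiIdentity.HoldsIn (σ : QuasiIdentity) (G : Type) [Group G] : Prop :=
  ∀ v : Fin σ.vars → G, (∀ u ∈ σ.premises, FreeGroup.lift v u = 1) →
    FreeGroup.lift v σ.conclusion = 1

/-- A class of groups. -/
abbrev GroupClass : Type 1 := (G : Type) → [Group G] → Prop

/-- The set `Σ` of quasi-identities defines `K` in the class `C`. -/
def Defines (S : Set QuasiIdentity) (K C : GroupClass) : Prop :=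
  ∀ (G : Type) [Group G], C G → (K G ↔ ∀ σ ∈ S, σ.HoldsIn G)

/-- The set `Σ` is independent in the class `C`: no member holds in every group of `C` satisfying
all the other members. -/
def IndependentIn (S : Set QuasiIdentity) (C : GroupClass) : Prop :=
  ∀ σ ∈ S, ¬ ∀ (G : Type) [Group G], C G → (∀ τ ∈ S \ {σ}, τ.HoldsIn G) → σ.HoldsIn G

/-- `G` has an abelian normal subgroup with nilpotent quotient. -/
def AbelianByNilpotent (G : Type) [Group G] : Prop :=
  ∃ A : Subgroup G, ∃ _ : A.Normal, (∀ a ∈ A, ∀ b ∈ A, a * b = b * a) ∧ Group.IsNilpotent (G ⧸ A)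

/-- Quasi-identities pass to groups embedding. -/
lemma holdsIn_of_injective (σ : QuasiIdentity) {G H : Type} [Group G] [Group H] (f : H →* G)
    (hf : Function.Injective f) (h : σ.HoldsIn G) : σ.HoldsIn H := by
  intro v hv
  have hlift : ∀ w, FreeGroup.lift (fun j => f (v j)) w = f (FreeGroup.lift v w) := by
    intro w
    have : FreeGroup.lift (fun j => f (v j)) = f.comp (FreeGroup.lift v) := by
      apply FreeGroup.ext_hom
      intro j
      simp
    rw [this]; rfl
  apply hf
  rw [map_one, ← hlift]
  apply h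
  intro u hu
  rw [hlift, hv u hu, map_one]

/-- Quasi-identities pass to powers. -/
lemma holdsIn_pi (σ : QuasiIdentity) {G : Type} [Group G] (ι : Type) (h : σ.HoldsIn G) :
    σ.HoldsIn (ι → G) := by
  intro v hv
  have hlift : ∀ w i, FreeGroup.lift (fun j => v j i) w = (FreeGroup.lift v w) i := by
    intro w i
    have : FreeGroup.lift (fun j => v j i) =
        (Pi.evalMonoidHom (fun _ : ι => G) i).comp (FreeGroup.lift v) := by
      apply FreeGroup.ext_hom
      intro j
      simp
    rw [this]; rfl
  funext i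
  rw [← hlift]
  apply h
  intro u hu
  rw [hlift, hv u hu]; rfl

/-- The general statement, for a property `K` lying between local indicability and
right-orderability. -/
theorem infinite_failing (K : GroupClass)
    (hK1 : ∀ (G : Type) [Group G], LocallyIndicable G → K G)
    (hK2 : ∀ (G : Type) [Group G], K G → RightOrderable G)
    (C : GroupClass)
    (hCsub : ∀ (G : Type) [Group G], C G → ∀ H : Subgroup G, C H)
    (hCpow : ∀ (G : Type) [Group G], C G → ∀ ι : Type, Finite ι → C (ι → G))
    (hCtf : ∀ (G : Type) [Group G], C G → TorsionFree G)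
    (S : Set QuasiIdentity) (hS : Defines S K C)
    (P : Type) [Group P] (hP : C P) (hPab : AbelianByNilpotent P) (hPK : ¬ K P) :
    {σ ∈ S | ¬ σ.HoldsIn P}.Infinite := by
  classical
  intro hfin
  obtain ⟨A, hAn, hA, hnil⟩ := hPab
  have hLI : ¬ LocallyIndicable P := fun h => hPK (hK1 P h)
  obtain ⟨X, Q, iQ, q, hC⟩ := exists_core P (hCtf P hP) A hA hLI
  -- a bound for the number of variables
  obtain ⟨r, hr⟩ : ∃ r : ℕ, ∀ σ ∈ {σ ∈ S | ¬ σ.HoldsIn P}, σ.vars ≤ r := by
    refine ⟨hfin.toFinset.sup QuasiIdentity.vars, fun σ hσ => ?_⟩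
    exact Finset.le_sup (f := QuasiIdentity.vars) (hfin.mem_toFinset.2 hσ)
  let k := r + Nat.card Q
  have hfinQ := hC.fin
  have hfinI := finite_idx Q k
  let E : Subgroup (Idx Q k → X) := (hC.Phi k).range
  have hCX : C X := hCsub P hP X
  have hCpow' : C (Idx Q k → X) := hCpow X hCX _ hfinI
  have hCE : C E := hCsub _ hCpow' E
  have hEK : ¬ K E := fun h => hC.not_rightOrderable k (Nat.le_add_left _ _) (hK2 _ h)
  have hEex : ∃ σ ∈ S, ¬ σ.HoldsIn E := by
    by_contra hcon
    push Not at hcon
    exact hEK ((hS E hCE).2 hcon)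
  obtain ⟨σ, hσS, hσE⟩ := hEex
  have hσP : ¬ σ.HoldsIn P := by
    intro h
    apply hσE
    have h1 : σ.HoldsIn X := holdsIn_of_injective σ X.subtype X.subtype_injective h
    have h2 : σ.HoldsIn (Idx Q k → X) := holdsIn_pi σ _ h1
    exact holdsIn_of_injective σ E.subtype E.subtype_injective h2
  have hvars : σ.vars ≤ r := hr σ ⟨hσS, hσP⟩
  -- the violating tuple
  unfold QuasiIdentity.HoldsIn at hσE
  push Not at hσE
  obtain ⟨x, hx1, hx2⟩ := hσE
  let W : Subgroup E := Subgroup.closure (Set.range x)
  have hxex : ∀ j, ∃ w, hC.Phi k w = (x j).1 := fun j => (x j).2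
  choose v hv using hxex
  have hWLI : LocallyIndicable W := by
    refine hC.locallyIndicable k (m := σ.vars) (by omega) W
      (E.subtype.comp W.subtype) (E.subtype_injective.comp W.subtype_injective) v ?_
    rintro ⟨y, hy⟩
    show ∃ w ∈ Subgroup.closure (Set.range v), hC.Phi k w = y.1
    induction hy using Subgroup.closure_induction with
    | mem y hy =>
      obtain ⟨j, rfl⟩ := hy
      exact ⟨v j, Subgroup.subset_closure ⟨j, rfl⟩, hv j⟩
    | one => exact ⟨1, one_mem _, by rw [map_one]; rfl⟩
    | mul a b _ _ ha hb =>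
      obtain ⟨wa, hwa, ea⟩ := ha
      obtain ⟨wb, hwb, eb⟩ := hb
      exact ⟨wa * wb, mul_mem hwa hwb, by rw [map_mul, ea, eb]; rfl⟩
    | inv a _ ha =>
      obtain ⟨wa, hwa, ea⟩ := ha
      exact ⟨wa⁻¹, inv_mem hwa, by rw [map_inv, ea]; rfl⟩
  have hCW : C W := hCsub E hCE W
  have hWσ := (hS W hCW).1 (hK1 W hWLI) σ hσS
  -- transfer of the tuple
  let x' : Fin σ.vars → W := fun j => ⟨x j, Subgroup.subset_closure ⟨j, rfl⟩⟩
  have hlift : ∀ w, ((FreeGroup.lift x' w : W) : E) = FreeGroup.lift x w := by
    intro w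
    have : W.subtype.comp (FreeGroup.lift x') = FreeGroup.lift x := by
      apply FreeGroup.ext_hom
      intro j
      simp [x']
    exact DFunLike.congr_fun this w
  apply hx2
  rw [← hlift]
  have h3 : FreeGroup.lift x' σ.conclusion = 1 := by
    apply hWσ
    intro u hu
    apply Subtype.ext
    rw [hlift, hx1 u hu]; rfl
  rw [h3]; rfl

/-- No independent set of quasi-identities defines `K` in a class of torsion-free
abelian-by-nilpotent groups containing a group outside `K`. -/
theorem not_independent (K : GroupClass)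
    (hK1 : ∀ (G : Type) [Group G], LocallyIndicable G → K G)
    (hK2 : ∀ (G : Type) [Group G], K G → RightOrderable G)
    (C : GroupClass)
    (hCsub : ∀ (G : Type) [Group G], C G → ∀ H : Subgroup G, C H)
    (hCpow : ∀ (G : Type) [Group G], C G → ∀ ι : Type, Finite ι → C (ι → G))
    (hCtf : ∀ (G : Type) [Group G], C G → TorsionFree G)
    (hCab : ∀ (G : Type) [Group G], C G → AbelianByNilpotent G)
    (hne : ∃ (G : Type) (_ : Group G), C G ∧ ¬ K G)
    (S : Set QuasiIdentity) (hS : Defines S K C) : ¬ IndependentIn S C := by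
  intro hind
  obtain ⟨P, iP, hP, hPK⟩ := hne
  have h1 := infinite_failing K hK1 hK2 C hCsub hCpow hCtf S hS P hP (hCab P hP) hPK
  obtain ⟨σ, hσS, hσP⟩ := h1.nonempty
  have h2 := hind σ hσS
  push Not at h2
  obtain ⟨G, iG, hG, hGτ, hGσ⟩ := h2
  have hGK : ¬ K G := fun h => hGσ ((hS G hG).1 h σ hσS)
  have h3 := infinite_failing K hK1 hK2 C hCsub hCpow hCtf S hS G hG (hCab G hG) hGK
  apply h3
  refine (Set.finite_singleton σ).subset ?_
  rintro τ ⟨hτS, hτG⟩
  by_contra hne
  exact hτG (hGτ τ ⟨hτS, hne⟩)

end Pool.Agent.H83.Ord
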