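import Pool.Agent.H83.Ord.HW

set_option autoImplicit false

/-!
# Torsion-free metabelian groups
-/

namespace Pool.Agent.H83.Ord

/-- A group is metabelian if its commutator subgroup is commutative. -/
def Metabelian (G : Type) [Group G] : Prop :=
  ∀ a ∈ commutator G, ∀ b ∈ commutator G, a * b = b * a

/-- The class of torsion-free metabelian groups. -/
def TorsionFreeMetabelian : GroupClass := fun G _ => TorsionFree G ∧ Metabelian G

lemma map_mem_commutator {G H : Type*} [Group G] [Group H] (f : H →* G) (x : H)
    (hx : x ∈ commutator H) : f x ∈ commutator G := by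
  have h := Abelianization.commutator_subset_ker ((Abelianization.of : G →* Abelianization G).comp f) hx
  rw [MonoidHom.mem_ker, MonoidHom.comp_apply] at h
  exact (QuotientGroup.eq_one_iff _).1 h

lemma Metabelian.of_injective {G H : Type} [Group G] [Group H] (f : H →* G)
    (hf : Function.Injective f) (h : Metabelian G) : Metabelian H := by
  intro a ha b hb
  apply hf
  rw [map_mul, map_mul]
  exact h _ (map_mem_commutator f a ha) _ (map_mem_commutator f b hb)

lemma Metabelian.pi {G : Type} [Group G] (ι : Type) (h : Metabelian G) : Metabelian (ι → G) := by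
  intro a ha b hb
  funext i
  exact h _ (map_mem_commutator (Pi.evalMonoidHom (fun _ : ι => G) i) a ha) _
    (map_mem_commutator (Pi.evalMonoidHom (fun _ : ι => G) i) b hb)

lemma Metabelian.abelianByNilpotent {G : Type} [Group G] (h : Metabelian G) :
    AbelianByNilpotent G := by
  refine ⟨commutator G, inferInstance, h, ?_⟩
  have : Group.IsNilpotent (Abelianization G) := inferInstance
  exact this

lemma TorsionFree.of_injective {G H : Type} [Group G] [Group H] (f : H →* G)
    (hf : Function.Injective f) (h : TorsionFree G) : TorsionFree H := by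
  intro g n hn hg
  apply hf
  rw [map_one]
  exact h _ n hn (by rw [← map_pow, hg, map_one])

lemma TorsionFree.pi {G : Type} [Group G] (ι : Type) (h : TorsionFree G) :
    TorsionFree (ι → G) := by
  intro g n hn hg
  funext i
  exact h _ n hn (congrFun hg i)

lemma eps_hom_mem (x : DihedralGroup 0) (hx : x ∈ commutator (DihedralGroup 0)) : eps x = 0 := by
  let f : DihedralGroup 0 →* Multiplicative (ZMod 2) :=
    { toFun := fun a => Multiplicative.ofAdd (eps a)
      map_one' := rfl
      map_mul' := fun a b => by rw [eps_mul]; rfl }
  have h := Abelianization.commutator_subset_ker f hx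
  exact h

lemma dihedral_metabelian : Metabelian (DihedralGroup 0) := by
  intro a ha b hb
  have h1 := eps_hom_mem a ha
  have h2 := eps_hom_mem b hb
  rcases a with i | i <;> rcases b with j | j
  · rw [DihedralGroup.r_mul_r, DihedralGroup.r_mul_r, add_comm]
  · exact absurd h2 (by show ¬ ((1 : ZMod 2) = 0); decide)
  · exact absurd h1 (by show ¬ ((1 : ZMod 2) = 0); decide)
  · exact absurd h1 (by show ¬ ((1 : ZMod 2) = 0); decide)

lemma HW_metabelian : Metabelian HW := by
  refine Metabelian.of_injective HW.subtype HW.subtype_injective ?_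
  intro a ha b hb
  have key : ∀ (f : DihedralGroup 0 × DihedralGroup 0 × DihedralGroup 0 →* DihedralGroup 0),
      f a * f b = f b * f a := fun f =>
    dihedral_metabelian _ (map_mem_commutator f a ha) _ (map_mem_commutator f b hb)
  refine Prod.ext ?_ (Prod.ext ?_ ?_)
  · exact key (MonoidHom.fst _ _)
  · exact key ((MonoidHom.fst _ _).comp (MonoidHom.snd _ _))
  · exact key ((MonoidHom.snd _ _).comp (MonoidHom.snd _ _))

theorem metabelian_not_independent (K : GroupClass)
    (hK1 : ∀ (G : Type) [Group G], LocallyIndicable G → K G)
    (hK2 : ∀ (G : Type) [Group G], K G → RightOrderable G)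
    (S : Set QuasiIdentity) (hS : Defines S K TorsionFreeMetabelian) :
    ¬ IndependentIn S TorsionFreeMetabelian := by
  refine not_independent K hK1 hK2 TorsionFreeMetabelian ?_ ?_ ?_ ?_ ?_ S hS
  · intro G _ hG H
    exact ⟨hG.1.of_injective H.subtype H.subtype_injective,
      hG.2.of_injective H.subtype H.subtype_injective⟩
  · intro G _ hG ι _
    exact ⟨hG.1.pi ι, hG.2.pi ι⟩
  · intro G _ hG
    exact hG.1
  · intro G _ hG
    exact hG.2.abelianByNilpotent
  · exact ⟨HW, inferInstance, ⟨HW_torsionFree, HW_metabelian⟩,
      fun h => HW_not_rightOrderable (hK2 _ h)⟩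

end Pool.Agent.H83.Ord
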