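import Mathlib

set_option autoImplicit false

/-!
# Basic facts on homomorphisms onto the integers, right-orderable and locally indicable groups
-/

namespace Pool.Agent.H83.Ord

/-- A group is torsion-free if `g ^ n = 1` with `n ≥ 1` implies `g = 1`. -/
def TorsionFree (G : Type) [Group G] : Prop :=
  ∀ (g : G) (n : ℕ), 1 ≤ n → g ^ n = 1 → g = 1

/-- A group is right-orderable if it carries a total order with `x ≤ y → x * z ≤ y * z`. -/
def RightOrderable (G : Type) [Group G] : Prop :=
  ∃ o : LinearOrder G, ∀ x y z : G, o.le x y → o.le (x * z) (y * z)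

/-- A group is locally indicable if every non-trivial finitely generated subgroup has a
homomorphism onto the infinite cyclic group. -/
def LocallyIndicable (G : Type) [Group G] : Prop :=
  ∀ H : Subgroup G, H.FG → H ≠ ⊥ → ∃ f : H →* Multiplicative ℤ, Function.Surjective f

/-- No homomorphism onto the infinite cyclic group. -/
def NoZ (G : Type*) [Group G] : Prop :=
  ∀ f : G →* Multiplicative ℤ, ¬ Function.Surjective f

/-- A homomorphism to the infinite cyclic group with a non-trivial value gives one which is onto. -/
lemma exists_surj_of_ne {G : Type*} [Group G] (f : G →* Multiplicative ℤ) (g : G) (hg : f g ≠ 1) :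
    ∃ f' : G →* Multiplicative ℤ, Function.Surjective f' := by
  have hc : IsCyclic f.range := inferInstance
  have hinf : Infinite f.range := by
    have hinj : Function.Injective (fun n : ℤ => (⟨f (g ^ n), ⟨g ^ n, rfl⟩⟩ : f.range)) := by
      intro a b hab
      have h1 : f (g ^ a) = f (g ^ b) := congrArg Subtype.val hab
      rw [map_zpow, map_zpow] at h1
      have h2 : Multiplicative.toAdd (f g ^ a) = Multiplicative.toAdd (f g ^ b) := congrArg _ h1
      rw [toAdd_zpow, toAdd_zpow] at h2
      have h3 : Multiplicative.toAdd (f g) ≠ 0 := fun h => hg (by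
        rw [← ofAdd_toAdd (f g), h]; rfl)
      simp only [smul_eq_mul] at h2
      exact mul_right_cancel₀ h3 h2
    exact Infinite.of_injective _ hinj
  have hcard : Nat.card f.range = 0 := Nat.card_eq_zero_of_infinite
  have e := zmodCyclicMulEquiv hc
  rw [hcard] at e
  refine ⟨(e.symm.toMonoidHom.comp f.rangeRestrict : G →* Multiplicative (ZMod 0)), ?_⟩
  exact e.symm.surjective.comp f.rangeRestrict_surjective

lemma NoZ.eq_one {G : Type*} [Group G] (h : NoZ G) (f : G →* Multiplicative ℤ) (g : G) :
    f g = 1 := by
  by_contra hg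
  obtain ⟨f', hf'⟩ := exists_surj_of_ne f g hg
  exact h f' hf'

lemma noZ_of_surjective {G H : Type*} [Group G] [Group H] (φ : G →* H)
    (hφ : Function.Surjective φ) (h : NoZ G) : NoZ H :=
  fun f hf => h (f.comp φ) (hf.comp hφ)

/-- A finitely generated torsion-free commutative group with a nontrivial element maps onto `ℤ`
with this element having non-trivial image. -/
lemma exists_hom_of_ne_one {B : Type*} [CommGroup B] (hfg : Group.FG B)
    (htf : ∀ (b : B) (n : ℕ), 1 ≤ n → b ^ n = 1 → b = 1) (b : B) (hb : b ≠ 1) :
    ∃ f : B →* Multiplicative ℤ, f b ≠ 1 := by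
  have hfin : Module.Finite ℤ (Additive B) := by
    rw [Module.Finite.iff_addGroup_fg]
    exact GroupFG.iff_add_fg.1 hfg
  have htors : Module.IsTorsionFree ℤ (Additive B) := by
    refine ⟨fun {r} hr => ?_⟩
    intro x y hxy
    have hr0 : r ≠ 0 := by
      intro h
      rw [h] at hr
      exact one_ne_zero (hr.left (by simp : (0:ℤ) * 1 = 0 * 0))
    have h1 : r • (x - y) = 0 := by
      rw [smul_sub]; exact sub_eq_zero.2 hxy
    have h2 : (r.natAbs) • (x - y) = 0 := by
      rcases Int.natAbs_eq r with h | h
      · rw [h] at h1
        rw [natCast_zsmul] at h1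
        exact h1
      · rw [h, neg_smul, neg_eq_zero, natCast_zsmul] at h1
        exact h1
    have h3 := htf (Additive.toMul (x - y)) r.natAbs (Nat.one_le_iff_ne_zero.2 (Int.natAbs_ne_zero.2 hr0))
      (by exact h2)
    exact sub_eq_zero.1 h3
  have hfree : Module.Free ℤ (Additive B) := Module.free_of_finite_type_torsion_free'
  let bas := Module.Free.chooseBasis ℤ (Additive B)
  have hne : (Additive.ofMul b) ≠ 0 := hb
  have hex : ∃ i, bas.repr (Additive.ofMul b) i ≠ 0 := by
    by_contra hcon
    push Not at hcon
    apply hne
    apply bas.repr.injective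
    ext i
    rw [hcon i, map_zero]; rfl
  obtain ⟨i, hi⟩ := hex
  refine ⟨AddMonoidHom.toMultiplicativeRight (bas.coord i).toAddMonoidHom, ?_⟩
  intro h
  exact hi h

/-- A finitely generated group without homomorphisms onto `ℤ` maps trivially to torsion-free
commutative groups. -/
lemma NoZ.hom_eq_one {G : Type*} [Group G] (hfg : Group.FG G) (h : NoZ G) {B : Type*} [CommGroup B]
    (htf : ∀ (b : B) (n : ℕ), 1 ≤ n → b ^ n = 1 → b = 1) (φ : G →* B) (g : G) : φ g = 1 := by
  by_contra hg
  have hfg' : Group.FG φ.range := Group.fg_range φ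
  obtain ⟨f, hf⟩ := exists_hom_of_ne_one (B := φ.range) hfg'
    (fun b n hn hb => by
      have := htf b.1 n hn (by
        have := congrArg Subtype.val hb
        simpa using this)
      exact Subtype.ext this) ⟨φ g, ⟨g, rfl⟩⟩ (fun h => hg (congrArg Subtype.val h))
  obtain ⟨f', hf'⟩ := exists_surj_of_ne (f.comp φ.rangeRestrict) g hf
  exact h f' hf'

/-- A finitely generated commutative group without homomorphisms onto `ℤ` is finite. -/
lemma NoZ.finite_of_comm {B : Type*} [CommGroup B] (hfg : Group.FG B) (h : NoZ B) : Finite B := by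
  have htor : Monoid.IsTorsion B := by
    intro b
    by_contra hb
    have := NoZ.hom_eq_one hfg h (B := B ⧸ CommGroup.torsion B) ?_ (QuotientGroup.mk' _) b
    · rw [QuotientGroup.mk'_apply, QuotientGroup.eq_one_iff] at this
      exact hb this
    · intro x n hn hx
      induction x using QuotientGroup.induction_on with
      | H z =>
        rw [← QuotientGroup.mk_pow, QuotientGroup.eq_one_iff] at hx
        rw [QuotientGroup.eq_one_iff]
        have hx' : IsOfFinOrder (z ^ n) := hx
        exact (isOfFinOrder_pow.1 hx').resolve_right (by omega)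
  exact CommGroup.finite_of_fg_torsion B htor

end Pool.Agent.H83.Ord
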