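import Pool.Agent.H83.Ord.Basic

set_option autoImplicit false

/-!
# Groups with an abelian normal subgroup of finite index without central elements

If `B` is an abelian normal subgroup of finite index of `G` and no non-trivial element of `B` is
central in `G`, then `G` has no homomorphism onto `ℤ`, and (if `G` is finitely generated and
`B ≠ 1`) `G` is not right-orderable.
-/

namespace Pool.Agent.H83.Ord

section norm

variable {G : Type*} [Group G] (B : Subgroup G) [B.Normal] [B.FiniteIndex]
  (hB : ∀ a ∈ B, ∀ b ∈ B, a * b = b * a)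

include hB in
/-- There is a norm: an element of `B` which is a product of the conjugates of `b` over coset
representatives; it is central. We record what we need in terms of multiplicative maps and of
sub-semigroups. -/
lemma exists_norm (b : G) (hb : b ∈ B) :
    ∃ c ∈ B, (∀ g : G, g * c = c * g) ∧
      (∀ f : G →* Multiplicative ℤ, f c = f b ^ B.index) ∧
      (∀ S : Subsemigroup G, (∀ g : G, g * b * g⁻¹ ∈ S) → c ∈ S) := by
  classical
  let _ : CommGroup B := { (inferInstance : Group B) with
    mul_comm := fun x y => Subtype.ext (hB x.1 x.2 y.1 y.2) }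
  have : Fintype (G ⧸ B) := Subgroup.fintypeQuotientOfFiniteIndex
  have hconj : ∀ (g : G) (a : G), a ∈ B → ∀ x : B, MulAut.conjNormal (g * a) x = MulAut.conjNormal g x := by
    intro g a ha x
    rw [map_mul, MulAut.mul_apply]
    congr 1
    apply Subtype.ext
    rw [MulAut.conjNormal_apply]
    rw [hB a ha x.1 x.2, mul_inv_cancel_right]
  let c : B := ∏ q : G ⧸ B, MulAut.conjNormal (Quotient.out q) (⟨b, hb⟩ : B)
  have hc : ∀ g : G, MulAut.conjNormal g c = c := by
    intro g
    have h1 : MulAut.conjNormal g c = ∏ q : G ⧸ B, MulAut.conjNormal (g * Quotient.out q) (⟨b, hb⟩ : B) := by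
      show (MulAut.conjNormal g : B ≃* B) (∏ q : G ⧸ B, _) = _
      rw [map_prod]
      refine Finset.prod_congr rfl fun q _ => ?_
      rw [map_mul]; rfl
    rw [h1]
    have h2 : ∀ q : G ⧸ B, MulAut.conjNormal (g * Quotient.out q) (⟨b, hb⟩ : B) =
        MulAut.conjNormal (Quotient.out (g • q)) (⟨b, hb⟩ : B) := by
      intro q
      have h3 : (g • q : G ⧸ B) = ((g * Quotient.out q : G) : G ⧸ B) := by
        conv_lhs => rw [← Quotient.out_eq' q]
        rfl
      obtain ⟨a, ha⟩ := QuotientGroup.mk_out_eq_mul B (g * Quotient.out q)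
      rw [h3, ha]
      exact (hconj _ a.1 a.2 _).symm
    rw [Finset.prod_congr rfl fun q _ => h2 q]
    exact Equiv.prod_comp (MulAction.toPerm g : Equiv.Perm (G ⧸ B))
      (fun q : G ⧸ B => (MulAut.conjNormal (Quotient.out q) (⟨b, hb⟩ : B) : B))
  refine ⟨c.1, c.2, ?_, ?_, ?_⟩
  · intro g
    have := congrArg Subtype.val (hc g)
    rw [MulAut.conjNormal_apply] at this
    exact mul_inv_eq_iff_eq_mul.1 this
  · intro f
    have h1 : f c.1 = (f.comp B.subtype) c := rfl
    rw [h1]
    show (f.comp B.subtype) (∏ q : G ⧸ B, MulAut.conjNormal (Quotient.out q) (⟨b, hb⟩ : B)) = _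
    rw [map_prod]
    have h2 : ∀ q : G ⧸ B, (f.comp B.subtype) (MulAut.conjNormal (Quotient.out q) (⟨b, hb⟩ : B)) = f b := by
      intro q
      show f ((MulAut.conjNormal (Quotient.out q) (⟨b, hb⟩ : B) : B) : G) = f b
      rw [MulAut.conjNormal_apply, map_mul, map_mul, map_inv, mul_comm (f (Quotient.out q)),
        mul_inv_cancel_right]
    rw [Finset.prod_congr rfl fun q _ => h2 q, Finset.prod_const, Finset.card_univ,
      Subgroup.index, Nat.card_eq_fintype_card]
  · intro S hS
    have hne : (Finset.univ : Finset (G ⧸ B)).Nonempty := ⟨((1 : G) : G ⧸ B), Finset.mem_univ _⟩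
    have key : ∀ s : Finset (G ⧸ B), s.Nonempty →
        ((∏ q ∈ s, MulAut.conjNormal (Quotient.out q) (⟨b, hb⟩ : B) : B) : G) ∈ S := by
      intro s hs
      induction hs using Finset.Nonempty.cons_induction with
      | singleton q =>
        rw [Finset.prod_singleton, MulAut.conjNormal_apply]
        exact hS _
      | cons q s hq hs ih =>
        rw [Finset.prod_cons, Subgroup.coe_mul, MulAut.conjNormal_apply]
        exact S.mul_mem (hS _) ih
    exact key _ hne

include hB in
/-- If no non-trivial element of `B` is central then `G` has no homomorphism onto `ℤ`. -/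
lemma noZ_of_no_central (hfix : ∀ b ∈ B, (∀ g : G, g * b = b * g) → b = 1) : NoZ G := by
  intro f hf
  have hidx : B.index ≠ 0 := Subgroup.FiniteIndex.index_ne_zero
  have hB1 : ∀ b ∈ B, f b = 1 := by
    intro b hb
    obtain ⟨c, hcB, hcc, hcf, -⟩ := exists_norm B hB b hb
    have h1 := hcf f
    rw [hfix c hcB hcc, map_one] at h1
    have h2 : (B.index : ℤ) * Multiplicative.toAdd (f b) = 0 := by
      have := congrArg Multiplicative.toAdd h1
      rw [toAdd_pow] at this
      simpa using this.symm
    rcases mul_eq_zero.1 h2 with h | h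
    · exact absurd (by exact_mod_cast h) hidx
    · rw [← ofAdd_toAdd (f b), h]; rfl
  obtain ⟨g, hg⟩ := hf (Multiplicative.ofAdd 1)
  have h1 : g ^ B.index ∈ B := B.pow_index_mem g
  have h2 := hB1 _ h1
  rw [map_pow, hg] at h2
  have h3 := congrArg Multiplicative.toAdd h2
  rw [toAdd_pow] at h3
  simp at h3
  exact hidx h3

end norm

section order

variable {G : Type*} [Group G] (B : Subgroup G) [B.Normal] [B.FiniteIndex]
  (hB : ∀ a ∈ B, ∀ b ∈ B, a * b = b * a)

/-- In a right-ordered group, powers of an element `≥ 1` are `≥ 1`. -/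
lemma one_le_pow_of_right (o : LinearOrder G) (ho : ∀ x y z : G, o.le x y → o.le (x * z) (y * z))
    (x : G) (hx : o.le 1 x) (n : ℕ) : o.le 1 (x ^ n) := by
  induction n with
  | zero => rw [pow_zero]
  | succ n ih =>
    rw [pow_succ]
    have h := ho 1 (x ^ n) x ih
    rw [one_mul] at h
    exact o.le_trans _ _ _ hx h

include hB in
/-- A finitely generated group with an abelian normal subgroup `B ≠ 1` of finite index such that no
non-trivial element of `B` is central is not right-orderable. -/
lemma not_right_orderable_of_no_central (hfg : Group.FG G)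
    (hfix : ∀ b ∈ B, (∀ g : G, g * b = b * g) → b = 1) (hne : ∃ b ∈ B, b ≠ 1)
    (o : LinearOrder G) (ho : ∀ x y z : G, o.le x y → o.le (x * z) (y * z)) : False := by
  classical
  have hidx : B.index ≠ 0 := Subgroup.FiniteIndex.index_ne_zero
  have hcomm : ∀ a ∈ B, ∀ b ∈ B, a * b = b * a := hB
  -- order facts
  have mul_le : ∀ x y : G, o.le 1 x → o.le y (x * y) := by
    intro x y hx
    have := ho 1 x y hx
    rwa [one_mul] at this
  have mul_pos : ∀ x y : G, o.le 1 x → o.le 1 y → o.le 1 (x * y) := fun x y hx hy =>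
    o.le_trans _ _ _ hy (mul_le x y hx)
  have inv_of : ∀ x : G, ¬ o.le 1 x → o.le 1 x⁻¹ := by
    intro x hx
    have h1 : o.le x 1 := (o.le_total 1 x).resolve_left hx
    have := ho x 1 x⁻¹ h1
    rwa [mul_inv_cancel, one_mul] at this
  -- the generating set of `B`
  obtain ⟨S, hS⟩ : ∃ S : Finset G, Subgroup.closure (S : Set G) = B := by
    have h1 : Group.FG B := Subgroup.fg_of_index_ne_zero B
    have h2 : B.FG := (Group.fg_iff_subgroup_fg B).1 h1
    exact h2
  have hSB : ∀ s ∈ S, s ∈ B := fun s hs => by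
    rw [← hS]; exact Subgroup.subset_closure hs
  -- absolute value
  let av : G → G := fun x => if o.le 1 x then x else x⁻¹
  have av_pos : ∀ x, o.le 1 (av x) := by
    intro x
    by_cases h : o.le 1 x
    · simp only [av, h, if_true]
    · simp only [av, h, if_false]; exact inv_of x h
  have av_mem : ∀ x ∈ B, av x ∈ B := by
    intro x hx
    by_cases h : o.le 1 x
    · simp only [av, h, if_true]; exact hx
    · simp only [av, h, if_false]; exact B.inv_mem hx
  -- a dominating element, by induction on a finite set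
  have dom : ∀ T : Finset G, (∀ s ∈ T, s ∈ B) → ∃ a ∈ B, o.le 1 a ∧
      ∀ s ∈ T, o.le s a ∧ o.le s⁻¹ a := by
    intro T
    induction T using Finset.induction_on with
    | empty => intro _; exact ⟨1, B.one_mem, o.le_refl 1, by simp⟩
    | insert t T ht ih =>
      intro hT
      obtain ⟨a, haB, ha1, has⟩ := ih (fun s hs => hT s (Finset.mem_insert_of_mem hs))
      have htB := hT t (Finset.mem_insert_self _ _)
      refine ⟨av t * a, B.mul_mem (av_mem t htB) haB, mul_pos _ _ (av_pos t) ha1, ?_⟩
      intro s hs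
      rcases Finset.mem_insert.1 hs with rfl | hs
      · have h1 : o.le (av s) (av s * a) := by
          rw [hcomm _ (av_mem s htB) _ haB]
          exact mul_le a (av s) ha1
        have h2 : o.le s (av s) ∧ o.le s⁻¹ (av s) := by
          by_cases h : o.le 1 s
          · simp only [av, h, if_true]
            refine ⟨o.le_refl _, o.le_trans _ _ _ ?_ h⟩
            have := ho 1 s s⁻¹ h
            rwa [one_mul, mul_inv_cancel] at this
          · simp only [av, h, if_false]
            refine ⟨o.le_trans _ _ _ ((o.le_total 1 s).resolve_left h) (inv_of s h), o.le_refl _⟩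
        exact ⟨o.le_trans _ _ _ h2.1 h1, o.le_trans _ _ _ h2.2 h1⟩
      · have h1 : o.le a (av t * a) := mul_le _ _ (av_pos t)
        exact ⟨o.le_trans _ _ _ (has s hs).1 h1, o.le_trans _ _ _ (has s hs).2 h1⟩
  obtain ⟨a, haB, ha1, has⟩ := dom S hSB
  -- monotonicity of left multiplication inside `B`
  have lmul : ∀ x ∈ B, ∀ y ∈ B, ∀ z ∈ B, o.le x y → o.le (z * x) (z * y) := by
    intro x hx y hy z hz hxy
    rw [hcomm z hz x hx, hcomm z hz y hy]
    exact ho x y z hxy
  have hpowB : ∀ n : ℕ, a ^ n ∈ B := fun n => B.pow_mem haB n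
  have pow_mono : ∀ m n : ℕ, m ≤ n → o.le (a ^ m) (a ^ n) := by
    intro m n hmn
    obtain ⟨k, rfl⟩ := Nat.exists_eq_add_of_le' hmn
    rw [pow_add]
    exact mul_le _ _ (one_le_pow_of_right o ho a ha1 k)
  have hdomB : ∀ b ∈ B, ∃ n : ℕ, o.le b (a ^ n) ∧ o.le b⁻¹ (a ^ n) := by
    intro b hb
    rw [← hS] at hb
    induction hb using Subgroup.closure_induction with
    | mem x hx => exact ⟨1, by rw [pow_one]; exact has x hx⟩
    | one => exact ⟨0, by rw [pow_zero, inv_one]; exact ⟨o.le_refl _, o.le_refl _⟩⟩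
    | mul x y hx hy ihx ihy =>
      obtain ⟨m, hm1, hm2⟩ := ihx
      obtain ⟨n, hn1, hn2⟩ := ihy
      rw [hS] at hx hy
      refine ⟨m + n, ?_, ?_⟩
      · rw [pow_add]
        exact o.le_trans _ _ _ (ho x (a ^ m) y hm1) (lmul y hy _ (hpowB n) _ (hpowB m) hn1)
      · rw [mul_inv_rev, hcomm y⁻¹ (B.inv_mem hy) x⁻¹ (B.inv_mem hx), pow_add]
        exact o.le_trans _ _ _ (ho _ (a ^ m) y⁻¹ hm2)
          (lmul _ (B.inv_mem hy) _ (hpowB n) _ (hpowB m) hn2)
    | inv x hx ih =>
      obtain ⟨n, h1, h2⟩ := ih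
      exact ⟨n, h2, by rw [inv_inv]; exact h1⟩
  have ha_ne : a ≠ 1 := by
    intro h
    obtain ⟨b, hb, hb1⟩ := hne
    obtain ⟨n, h1, h2⟩ := hdomB b hb
    rw [h, one_pow] at h1 h2
    apply hb1
    refine o.le_antisymm _ _ h1 ?_
    have := ho _ _ b h2
    rwa [inv_mul_cancel, one_mul] at this
  -- cofinality
  have cof : ∀ y : G, ∃ n : ℕ, o.le y (a ^ n) := by
    intro y
    by_cases hy : o.le 1 y
    · obtain ⟨n, hn, -⟩ := hdomB _ (B.pow_index_mem y)
      refine ⟨n, o.le_trans _ _ _ ?_ hn⟩
      obtain ⟨k, hk⟩ := Nat.exists_eq_succ_of_ne_zero hidx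
      rw [hk, pow_succ]
      exact mul_le _ _ (one_le_pow_of_right o ho y hy k)
    · exact ⟨0, by rw [pow_zero]; exact (o.le_total 1 y).resolve_left hy⟩
  have cof2 : ∀ g y : G, ∃ n : ℕ, o.le y (g * a ^ n) := by
    intro g y
    obtain ⟨n0, hn0⟩ := cof y
    by_cases hg : o.le 1 g
    · exact ⟨n0, o.le_trans _ _ _ hn0 (mul_le _ _ hg)⟩
    · obtain ⟨k, hk⟩ := Nat.exists_eq_succ_of_ne_zero hidx
      have hgN : g ^ B.index ∈ B := B.pow_index_mem g
      obtain ⟨j, -, hj⟩ := hdomB _ hgN
      refine ⟨j + n0, ?_⟩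
      have h1 : g * a ^ (j + n0) = (g⁻¹) ^ k * (g ^ B.index * a ^ (j + n0)) := by
        rw [hk, Nat.succ_eq_add_one, pow_succ, inv_pow]
        group
      rw [h1]
      have h2 : o.le (g ^ B.index * a ^ (j + n0)) ((g⁻¹) ^ k * (g ^ B.index * a ^ (j + n0))) :=
        mul_le _ _ (one_le_pow_of_right o ho _ (inv_of g hg) k)
      refine o.le_trans _ _ _ (o.le_trans _ _ _ hn0 ?_) h2
      -- a ^ n0 ≤ g ^ N * a ^ (j + n0)
      have h3 := ho _ _ (g ^ B.index) hj
      rw [inv_mul_cancel] at h3
      have h4 : g ^ B.index * a ^ (j + n0) = (a ^ j * g ^ B.index) * a ^ n0 := by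
        rw [pow_add, ← mul_assoc, hcomm _ hgN _ (hpowB j)]
      rw [h4]
      exact mul_le _ _ h3
  -- conjugates of `a` are positive
  have conj_pos : ∀ g : G, o.lt 1 (g * a * g⁻¹) := by
    intro g
    rw [o.lt_iff_le_not_ge]
    have hgoal : ¬ o.le (g * a * g⁻¹) 1 := by
      intro hle
      have hcB : g * a * g⁻¹ ∈ B := ‹B.Normal›.conj_mem a haB g
      have hn : ∀ n : ℕ, o.le ((g * a * g⁻¹) ^ n) 1 := by
        intro n
        induction n with
        | zero => rw [pow_zero]
        | succ n ih =>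
          rw [pow_succ]
          have := ho _ _ (g * a * g⁻¹) ih
          rw [one_mul] at this
          exact o.le_trans _ _ _ this hle
      have hn' : ∀ n : ℕ, o.le (g * a ^ n) g := by
        intro n
        have h1 := ho _ _ g (hn n)
        rw [conj_pow, one_mul, inv_mul_cancel_right] at h1
        exact h1
      obtain ⟨n, hn1⟩ := cof2 g (a * g)
      have h2 : o.le (a * g) g := o.le_trans _ _ _ hn1 (hn' n)
      have h3 := ho _ _ g⁻¹ h2
      rw [mul_inv_cancel_right, mul_inv_cancel] at h3
      exact ha_ne (o.le_antisymm _ _ h3 ha1)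
    exact ⟨(o.le_total 1 _).resolve_right hgoal, hgoal⟩
  -- the norm of `a`
  obtain ⟨c, hcB, hcc, -, hcS⟩ := exists_norm B hB a haB
  let Pos : Subsemigroup G :=
    { carrier := {x | o.lt 1 x}
      mul_mem' := by
        intro x y hx hy
        have hx' : o.lt 1 x := hx
        have hy' : o.lt 1 y := hy
        show o.lt 1 (x * y)
        rw [o.lt_iff_le_not_ge] at hx' hy' ⊢
        refine ⟨mul_pos x y hx'.1 hy'.1, fun h => hy'.2 ?_⟩
        exact o.le_trans _ _ _ (mul_le x y hx'.1) h }
  have hcpos : o.lt 1 c := hcS Pos conj_pos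
  rw [hfix c hcB hcc] at hcpos
  exact (o.lt_iff_le_not_ge 1 1).1 hcpos |>.2 (o.le_refl 1)

end order

end Pool.Agent.H83.Ord
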