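import Pool.Agent.H83.Ord.Nilp
import Pool.Agent.H83.Ord.Norm

set_option autoImplicit false

/-!
# Minimal finitely generated subgroups without homomorphisms onto the integers
-/

namespace Pool.Agent.H83.Ord

/-- The data of a minimal situation. -/
structure Core (G Q : Type) [Group G] [Group Q] (q : G →* Q) : Prop where
  surj : Function.Surjective q
  fin : Finite Q
  nilp : Group.IsNilpotent Q
  comm : ∀ a b : G, q a = 1 → q b = 1 → a * b = b * a
  tf : TorsionFree G
  fg : Group.FG G
  noz : NoZ G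
  nontriv : ∃ g : G, g ≠ 1
  min : ∀ Z : Subgroup G, Z.FG → Z ≠ ⊥ → NoZ Z → Z.map q = ⊤

lemma exists_core (P : Type) [Group P] (htf : TorsionFree P) (A : Subgroup P) [A.Normal]
    (hA : ∀ a ∈ A, ∀ b ∈ A, a * b = b * a) [hnil : Group.IsNilpotent (P ⧸ A)]
    (hK : ¬ LocallyIndicable P) :
    ∃ (X : Subgroup P) (Q : Type) (_ : Group Q) (q : X →* Q), Core X Q q := by
  classical
  have hfin : ∀ X : Subgroup P, X.FG → NoZ X → Finite (X.map (QuotientGroup.mk' A)) := by
    intro X hX hN
    refine NoZ.finite_of_nilpotent _ ?_ ?_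
    · have h1 : Group.FG X := (Group.fg_iff_subgroup_fg X).2 hX
      exact Group.fg_of_surjective (f := (QuotientGroup.mk' A).subgroupMap X)
        ((QuotientGroup.mk' A).subgroupMap_surjective X)
    · exact noZ_of_surjective ((QuotientGroup.mk' A).subgroupMap X)
        ((QuotientGroup.mk' A).subgroupMap_surjective X) hN
  let S : Set ℕ := {n | ∃ X : Subgroup P, X.FG ∧ X ≠ ⊥ ∧ NoZ X ∧
    Nat.card (X.map (QuotientGroup.mk' A)) = n}
  have hS : S.Nonempty := by
    unfold LocallyIndicable at hK
    push Not at hK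
    obtain ⟨H, hH, hH1, hH2⟩ := hK
    exact ⟨_, H, hH, hH1, fun f hf => hH2 f hf, rfl⟩
  obtain ⟨X, hX, hX1, hXN, hXc⟩ := Nat.sInf_mem hS
  have hXfin := hfin X hX hXN
  refine ⟨X, X.map (QuotientGroup.mk' A), inferInstance, (QuotientGroup.mk' A).subgroupMap X, ?_⟩
  refine ⟨(QuotientGroup.mk' A).subgroupMap_surjective X, hXfin, inferInstance, ?_, ?_,
    (Group.fg_iff_subgroup_fg X).2 hX, hXN, ?_, ?_⟩
  · intro a b ha hb
    have ha' : (a : P) ∈ A := by
      have := congrArg Subtype.val ha
      exact (QuotientGroup.eq_one_iff _).1 this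
    have hb' : (b : P) ∈ A := by
      have := congrArg Subtype.val hb
      exact (QuotientGroup.eq_one_iff _).1 this
    exact Subtype.ext (hA _ ha' _ hb')
  · intro g n hn hg
    refine Subtype.ext (htf g.1 n hn ?_)
    have := congrArg Subtype.val hg
    simpa using this
  · by_contra hcon
    push Not at hcon
    apply hX1
    rw [Subgroup.eq_bot_iff_forall]
    intro x hx
    exact congrArg Subtype.val (hcon ⟨x, hx⟩)
  · intro Z hZ hZ1 hZN
    let Z' : Subgroup P := Z.map X.subtype
    have hZ'X : Z' ≤ X := by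
      rintro _ ⟨z, -, rfl⟩
      exact z.2
    have e : Z ≃* Z' := Z.equivMapOfInjective X.subtype X.subtype_injective
    have hZ'fg : Z'.FG := by
      have h1 : Group.FG Z := (Group.fg_iff_subgroup_fg Z).2 hZ
      exact (Group.fg_iff_subgroup_fg Z').1 (Group.fg_of_surjective (f := e.toMonoidHom) e.surjective)
    have hZ'1 : Z' ≠ ⊥ := by
      intro h
      apply hZ1
      exact (Subgroup.map_eq_bot_iff_of_injective Z X.subtype_injective).1 h
    have hZ'N : NoZ Z' := noZ_of_surjective e.toMonoidHom e.surjective hZN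
    have hmem : Nat.card (Z'.map (QuotientGroup.mk' A)) ∈ S := ⟨Z', hZ'fg, hZ'1, hZ'N, rfl⟩
    have hle := Nat.sInf_le hmem
    rw [← hXc] at hle
    have heq : Z'.map (QuotientGroup.mk' A) = X.map (QuotientGroup.mk' A) :=
      Subgroup.eq_of_le_of_card_ge (Subgroup.map_mono hZ'X) hle
    rw [eq_top_iff]
    rintro ⟨y, hy⟩ -
    have hy' := hy
    rw [← heq] at hy'
    obtain ⟨_, ⟨z, hz, rfl⟩, hzy⟩ := hy'
    exact ⟨z, hz, Subtype.ext hzy⟩

section

variable {G Q : Type} [Group G] [Group Q] {q : G →* Q} (hC : Core G Q q)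

include hC in
/-- The target of `q` is non-trivial. -/
lemma Core.nontrivial_Q : Nontrivial Q := by
  by_contra h
  rw [not_nontrivial_iff_subsingleton] at h
  obtain ⟨g, hg⟩ := hC.nontriv
  let _ : CommGroup G := { (inferInstance : Group G) with
    mul_comm := fun x y => hC.comm x y (Subsingleton.elim _ _) (Subsingleton.elim _ _) }
  have := NoZ.hom_eq_one hC.fg hC.noz (B := G) hC.tf (MonoidHom.id G) g
  exact hg this

include hC in
/-- No non-trivial element is central. -/
lemma Core.central_eq_one (z : G) (hcen : ∀ g : G, g * z = z * g) : z = 1 := by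
  have hfin := hC.fin
  have hfi : q.ker.FiniteIndex := Subgroup.finiteIndex_ker q
  let _ : CommGroup q.ker := { (inferInstance : Group q.ker) with
    mul_comm := fun x y => Subtype.ext (hC.comm x.1 y.1 x.2 y.2) }
  have h1 := NoZ.hom_eq_one hC.fg hC.noz (B := q.ker) (fun b n hn hb => by
    refine Subtype.ext (hC.tf b.1 n hn ?_)
    have := congrArg Subtype.val hb
    simpa using this) (MonoidHom.transfer (MonoidHom.id q.ker)) z
  have h2 := MonoidHom.transfer_eq_pow (MonoidHom.id q.ker) z (fun k g₀ _ => by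
    have h3 : ∀ k : ℕ, z ^ k * g₀ = g₀ * z ^ k := by
      intro k
      have : Commute z g₀ := (hcen g₀).symm
      exact this.pow_left k
    rw [mul_assoc, h3, inv_mul_cancel_left])
  rw [h1] at h2
  have h3 := congrArg Subtype.val h2
  simp at h3
  exact hC.tf z _ (Nat.one_le_iff_ne_zero.2 hfi.index_ne_zero) h3.symm

end

end Pool.Agent.H83.Ord
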