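import Pool.Agent.H83.Ord.Core

set_option autoImplicit false

/-!
# Endomorphisms of finite abelian groups of non-prime order
-/

namespace Pool.Agent.H83.Ord

/-- A finite commutative group which is non-trivial and not of prime order has an endomorphism
which is neither trivial nor onto. -/
lemma exists_endo (A : Type) [CommGroup A] [Finite A] [Nontrivial A]
    (hp : ¬ (Nat.card A).Prime) :
    ∃ e : A →* A, (∃ x, e x ≠ 1) ∧ ¬ Function.Surjective e := by
  classical
  obtain ⟨M, hM⟩ : ∃ M : Subgroup A, IsCoatom M := by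
    obtain ⟨M, hM, -⟩ := (eq_top_or_exists_le_coatom (⊥ : Subgroup A)).resolve_left bot_ne_top
    exact ⟨M, hM⟩
  have hnt : Nontrivial (A ⧸ M) := by
    rw [QuotientGroup.nontrivial_iff]
    exact hM.1
  have hsimple : IsSimpleGroup (A ⧸ M) := by
    refine ⟨fun K _ => ?_⟩
    have h1 : M ≤ K.comap (QuotientGroup.mk' M) := by
      intro x hx
      rw [Subgroup.mem_comap]
      have : QuotientGroup.mk' M x = 1 := (QuotientGroup.eq_one_iff _).2 hx
      rw [this]; exact K.one_mem
    rcases hM.le_iff.1 h1 with h | h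
    · right
      rw [eq_top_iff]
      intro y _
      obtain ⟨x, rfl⟩ := QuotientGroup.mk'_surjective M y
      have : x ∈ K.comap (QuotientGroup.mk' M) := by rw [h]; trivial
      exact this
    · left
      rw [Subgroup.eq_bot_iff_forall]
      intro y hy
      obtain ⟨x, rfl⟩ := QuotientGroup.mk'_surjective M y
      have : x ∈ K.comap (QuotientGroup.mk' M) := hy
      rw [h] at this
      exact (QuotientGroup.eq_one_iff _).2 this
  have hprime : (Nat.card (A ⧸ M)).Prime := IsSimpleGroup.prime_card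
  have hfact : Fact (Nat.card (A ⧸ M)).Prime := ⟨hprime⟩
  have hdvd : Nat.card (A ⧸ M) ∣ Nat.card A := Subgroup.card_quotient_dvd_card M
  obtain ⟨x, hx⟩ := exists_prime_orderOf_dvd_card' (Nat.card (A ⧸ M)) hdvd
  have hz : Nat.card (Subgroup.zpowers x) = Nat.card (A ⧸ M) := by
    rw [Nat.card_zpowers, hx]
  let ee : (A ⧸ M) ≃* Subgroup.zpowers x := mulEquivOfPrimeCardEq rfl hz
  refine ⟨(Subgroup.zpowers x).subtype.comp (ee.toMonoidHom.comp (QuotientGroup.mk' M)), ?_, ?_⟩
  · have hx1 : x ≠ 1 := by
      intro h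
      rw [h, orderOf_one] at hx
      exact hprime.one_lt.ne hx
    obtain ⟨y, hy⟩ := ee.surjective ⟨x, Subgroup.mem_zpowers x⟩
    obtain ⟨z, rfl⟩ := QuotientGroup.mk'_surjective M y
    refine ⟨z, ?_⟩
    show ((ee (QuotientGroup.mk' M z) : Subgroup.zpowers x) : A) ≠ 1
    rw [hy]; exact hx1
  · intro hs
    apply hp
    have : Subgroup.zpowers x = ⊤ := by
      rw [eq_top_iff]
      intro y _
      obtain ⟨w, rfl⟩ := hs y
      exact (ee (QuotientGroup.mk' M w)).2
    rw [this, Subgroup.card_top] at hz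
    rw [hz]; exact hprime

section

variable {G Q : Type} [Group G] [Group Q] {q : G →* Q} (hC : Core G Q q)

include hC in
lemma Core.exists_endo : ∃ e : Abelianization Q →* Abelianization Q,
    (∃ x, e x ≠ 1) ∧ ¬ Function.Surjective e := by
  have hfin := hC.fin
  have hnil := hC.nilp
  have hnt := hC.nontrivial_Q
  have hntA : Nontrivial (Abelianization Q) := by
    by_contra h
    rw [not_nontrivial_iff_subsingleton] at h
    have h1 : (⊥ : Subgroup Q) ⊔ commutator Q = ⊤ := by
      rw [bot_sup_eq, eq_top_iff]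
      intro x _
      have h2 : (Abelianization.of x : Abelianization Q) = 1 := Subsingleton.elim _ _
      exact (QuotientGroup.eq_one_iff _).1 h2
    exact bot_ne_top (eq_top_of_sup_commutator _ h1)
  have hfinA : Finite (Abelianization Q) := Finite.of_surjective _ abel_of_surjective
  refine Pool.Agent.H83.Ord.exists_endo _ ?_
  intro hprime
  obtain ⟨a, ha⟩ := exists_ne (1 : Abelianization Q)
  obtain ⟨x, rfl⟩ := abel_of_surjective a
  have hfact : Fact (Nat.card (Abelianization Q)).Prime := ⟨hprime⟩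
  have h1 : Subgroup.zpowers (Abelianization.of x : Abelianization Q) = ⊤ :=
    zpowers_eq_top_of_prime_card rfl ha
  have h2 : Subgroup.zpowers x ⊔ commutator Q = ⊤ := by
    rw [eq_top_iff]
    intro y _
    have h3 : (Abelianization.of y : Abelianization Q) ∈ Subgroup.zpowers (Abelianization.of x : Abelianization Q) := by
      rw [h1]; trivial
    obtain ⟨i, hi⟩ := h3
    have h4 : (x ^ i)⁻¹ * y ∈ commutator Q := by
      rw [← QuotientGroup.eq]
      have : (Abelianization.of (x ^ i) : Abelianization Q) = Abelianization.of y := by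
        rw [map_zpow]; exact hi
      exact this
    have h5 : y = x ^ i * ((x ^ i)⁻¹ * y) := by group
    rw [h5]
    exact mul_mem (Subgroup.mem_sup_left ⟨i, rfl⟩) (Subgroup.mem_sup_right h4)
  have h3 := eq_top_of_sup_commutator _ h2
  obtain ⟨g, rfl⟩ := hC.surj x
  have h4 : q (g ^ Nat.card Q) = 1 := by rw [map_pow, pow_card_eq_one']
  have h5 : g ^ Nat.card Q = 1 := by
    apply hC.central_eq_one
    intro h
    have h6 : q h ∈ Subgroup.zpowers (q g) := by rw [h3]; trivial
    obtain ⟨i, hi⟩ := h6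
    have h7 : q ((g ^ i)⁻¹ * h) = 1 := by
      rw [map_mul, map_inv, map_zpow, ← hi]
      simp
    have h8 := hC.comm _ _ h4 h7
    have h9 : h = g ^ i * ((g ^ i)⁻¹ * h) := by group
    have h10 : g ^ Nat.card Q * g ^ i = g ^ i * g ^ Nat.card Q := by
      rw [← zpow_natCast, ← zpow_add, ← zpow_add, add_comm]
    calc h * g ^ Nat.card Q = g ^ i * (((g ^ i)⁻¹ * h) * g ^ Nat.card Q) := by group
      _ = g ^ i * (g ^ Nat.card Q * ((g ^ i)⁻¹ * h)) := by rw [h8]
      _ = (g ^ i * g ^ Nat.card Q) * ((g ^ i)⁻¹ * h) := by group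
      _ = (g ^ Nat.card Q * g ^ i) * ((g ^ i)⁻¹ * h) := by rw [h10]
      _ = g ^ Nat.card Q * h := by group
  have h6 := hC.tf g _ Nat.card_pos h5
  rw [h6] at ha
  simp at ha

end

end Pool.Agent.H83.Ord
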