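import Pool.Agent.H83.Ord.Main

set_option autoImplicit false

/-!
# The Hantzsche–Wendt group

A torsion-free metabelian group which is not right-orderable, as a subgroup of the cube of the
infinite dihedral group.
-/

namespace Pool.Agent.H83.Ord

open DihedralGroup

/-- The reflection character of the infinite dihedral group. -/
def eps : DihedralGroup 0 → ZMod 2
  | r _ => 0
  | sr _ => 1

/-- Reduction modulo two. -/
def red : ZMod 0 →+* ZMod 2 := ZMod.castHom (dvd_zero 2) (ZMod 2)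

/-- The parity character of the infinite dihedral group. -/
def par : DihedralGroup 0 → ZMod 2
  | r i => red i
  | sr i => red i

lemma eps_mul (a b : DihedralGroup 0) : eps (a * b) = eps a + eps b := by
  cases a <;> cases b <;> simp only [r_mul_r, r_mul_sr, sr_mul_r, sr_mul_sr, eps] <;> decide

lemma par_mul (a b : DihedralGroup 0) : par (a * b) = par a + par b := by
  have h2 : ∀ x : ZMod 2, -x = x := by decide
  rcases a with i | i <;> rcases b with j | j
  · show red (i + j) = red i + red j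
    rw [map_add]
  · show red (j - i) = red i + red j
    rw [map_sub, sub_eq_add_neg, h2, add_comm]
  · show red (i + j) = red i + red j
    rw [map_add]
  · show red (j - i) = red i + red j
    rw [map_sub, sub_eq_add_neg, h2, add_comm]

lemma eps_one : eps 1 = 0 := rfl
lemma par_one : par 1 = 0 := map_zero red

lemma eps_inv (a : DihedralGroup 0) : eps a⁻¹ = eps a := by
  have h2 : ∀ x y : ZMod 2, x + y = 0 → x = y := by decide
  apply h2
  rw [← eps_mul, inv_mul_cancel, eps_one]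

lemma par_inv (a : DihedralGroup 0) : par a⁻¹ = par a := by
  have h2 : ∀ x y : ZMod 2, x + y = 0 → x = y := by decide
  apply h2
  rw [← par_mul, inv_mul_cancel, par_one]

/-- The Hantzsche–Wendt group. -/
def HW : Subgroup (DihedralGroup 0 × DihedralGroup 0 × DihedralGroup 0) where
  carrier := {g | par g.1 = eps g.2.1 ∧ par g.2.1 = eps g.2.2 ∧ par g.2.2 = eps g.1 ∧
    eps g.1 + eps g.2.1 + eps g.2.2 = 0}
  one_mem' := ⟨by simp [eps_one, par_one], by simp [eps_one, par_one], by simp [eps_one, par_one],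
    by simp [eps_one]⟩
  mul_mem' := by
    rintro a b ⟨h1, h2, h3, h4⟩ ⟨h1', h2', h3', h4'⟩
    refine ⟨?_, ?_, ?_, ?_⟩
    · show par (a.1 * b.1) = eps (a.2.1 * b.2.1)
      rw [par_mul, eps_mul, h1, h1']
    · show par (a.2.1 * b.2.1) = eps (a.2.2 * b.2.2)
      rw [par_mul, eps_mul, h2, h2']
    · show par (a.2.2 * b.2.2) = eps (a.1 * b.1)
      rw [par_mul, eps_mul, h3, h3']
    · show eps (a.1 * b.1) + eps (a.2.1 * b.2.1) + eps (a.2.2 * b.2.2) = 0
      rw [eps_mul, eps_mul, eps_mul]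
      calc _ = (eps a.1 + eps a.2.1 + eps a.2.2) + (eps b.1 + eps b.2.1 + eps b.2.2) := by ring
        _ = 0 := by rw [h4, h4', add_zero]
  inv_mem' := by
    rintro a ⟨h1, h2, h3, h4⟩
    refine ⟨?_, ?_, ?_, ?_⟩
    · show par (a.1⁻¹) = eps (a.2.1⁻¹)
      rw [par_inv, eps_inv, h1]
    · show par (a.2.1⁻¹) = eps (a.2.2⁻¹)
      rw [par_inv, eps_inv, h2]
    · show par (a.2.2⁻¹) = eps (a.1⁻¹)
      rw [par_inv, eps_inv, h3]
    · show eps (a.1⁻¹) + eps (a.2.1⁻¹) + eps (a.2.2⁻¹) = 0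
      rw [eps_inv, eps_inv, eps_inv, h4]

lemma r_pow_int (i : ZMod 0) (n : ℕ) : (r (n := 0) i) ^ n = r ((n : ZMod 0) * i) := by
  induction n with
  | zero => rw [pow_zero, Nat.cast_zero, zero_mul]; rfl
  | succ n ih =>
    rw [pow_succ, ih, r_mul_r, Nat.cast_succ, add_mul, one_mul]

/-- An element of finite order of the infinite dihedral group is trivial or a reflection. -/
lemma fin_order (g : DihedralGroup 0) (n : ℕ) (hn : 1 ≤ n) (hg : g ^ n = 1) (he : eps g = 0) :
    g = 1 := by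
  rcases g with i | i
  · have h1 : r (n := 0) ((n : ZMod 0) * i) = r 0 := by
      rw [← r_pow_int i n]; exact hg
    have h2 : (n : ZMod 0) * i = 0 := by
      injection h1
    have h3 : ((n : ℤ) * (show ℤ from i)) = 0 := by
      have h4 : ((n : ZMod 0)) = (show ZMod 0 from (n : ℤ)) := by
        induction n with
        | zero => rfl
        | succ n _ => exact (Int.natCast_succ n).symm ▸ rfl
      rw [h4] at h2
      exact h2
    rcases mul_eq_zero.1 h3 with h | h
    · omega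
    · show r i = r 0
      exact congrArg r h
  · exact absurd he (by show ¬ ((1 : ZMod 2) = 0); decide)

lemma HW_torsionFree : TorsionFree HW := by
  rintro ⟨⟨a, b, c⟩, h1, h2, h3, h4⟩ n hn hg
  have hg' : (a, b, c) ^ n = 1 := congrArg Subtype.val hg
  have ha : a ^ n = 1 := congrArg Prod.fst hg'
  have hb : b ^ n = 1 := congrArg (fun x => x.2.1) hg'
  have hc : c ^ n = 1 := congrArg (fun x => x.2.2) hg'
  simp only at h1 h2 h3 h4
  have ea : eps a = 0 → a = 1 := fin_order a n hn ha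
  have eb : eps b = 0 → b = 1 := fin_order b n hn hb
  have ec : eps c = 0 → c = 1 := fin_order c n hn hc
  have hz : ∀ x : ZMod 2, x = 0 ∨ x = 1 := by decide
  have main : a = 1 ∧ b = 1 ∧ c = 1 := by
    rcases hz (eps a) with h | h
    · have ha1 := ea h
      have hb1 : b = 1 := eb (by rw [← h1, ha1, par_one])
      have hc1 : c = 1 := ec (by rw [← h2, hb1, par_one])
      exact ⟨ha1, hb1, hc1⟩
    · rcases hz (eps b) with h' | h'
      · have hb1 := eb h'
        have hc1 : c = 1 := ec (by rw [← h2, hb1, par_one])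
        have ha1 : a = 1 := ea (by rw [← h3, hc1, par_one])
        exact ⟨ha1, hb1, hc1⟩
      · have hc0 : eps c = 0 := by
          rw [h, h'] at h4
          have : (1 : ZMod 2) + 1 = 0 := by decide
          rw [this, zero_add] at h4
          exact h4
        have hc1 := ec hc0
        have ha1 : a = 1 := ea (by rw [← h3, hc1, par_one])
        have hb1 : b = 1 := eb (by rw [← h1, ha1, par_one])
        exact ⟨ha1, hb1, hc1⟩
  obtain ⟨rfl, rfl, rfl⟩ := main
  rfl

/-- The first generator. -/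
def hx : HW := ⟨(r 1, sr 1, sr 0), by
  refine ⟨?_, ?_, ?_, ?_⟩ <;> simp only [eps, par, map_one, map_zero] <;> decide⟩

/-- The second generator. -/
def hy : HW := ⟨(sr 0, r 1, sr 1), by
  refine ⟨?_, ?_, ?_, ?_⟩ <;> simp only [eps, par, map_one, map_zero] <;> decide⟩

lemma rel1 : hx * hy ^ 2 * hx⁻¹ * hy ^ 2 = 1 := by
  apply Subtype.ext
  show (((r 1, sr 1, sr 0) : DihedralGroup 0 × DihedralGroup 0 × DihedralGroup 0) *
    (sr 0, r 1, sr 1) ^ 2 * (r 1, sr 1, sr 0)⁻¹ * (sr 0, r 1, sr 1) ^ 2) = 1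
  refine Prod.ext ?_ (Prod.ext ?_ ?_) <;> simp [pow_two]

lemma rel2 : hy * hx ^ 2 * hy⁻¹ * hx ^ 2 = 1 := by
  apply Subtype.ext
  show (((sr 0, r 1, sr 1) : DihedralGroup 0 × DihedralGroup 0 × DihedralGroup 0) *
    (r 1, sr 1, sr 0) ^ 2 * (sr 0, r 1, sr 1)⁻¹ * (r 1, sr 1, sr 0) ^ 2) = 1
  refine Prod.ext ?_ (Prod.ext ?_ ?_) <;> simp [pow_two]

/-- In a right-ordered group the two relations force one of the elements to be trivial. -/
lemma pos_word {G : Type*} [Group G] (o : LinearOrder G)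
    (ho : ∀ x y z : G, o.le x y → o.le (x * z) (y * z)) (x y : G) (hx : o.le 1 x) (hy : o.le 1 y)
    (hx1 : x ≠ 1) (h1 : x * y ^ 2 * x⁻¹ * y ^ 2 = 1) (h2 : y * x ^ 2 * y⁻¹ * x ^ 2 = 1) : False := by
  have mul_pos : ∀ a b : G, o.le 1 a → o.le 1 b → o.le 1 (a * b) := by
    intro a b ha hb
    have := ho 1 a b ha
    rw [one_mul] at this
    exact o.le_trans _ _ _ hb this
  have e1 : x = y ^ 2 * x * y ^ 2 := by
    have h : x * y ^ 2 * x⁻¹ = (y ^ 2)⁻¹ := eq_inv_of_mul_eq_one_left h1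
    have h' : x * y ^ 2 = (y ^ 2)⁻¹ * x := by rw [← h]; group
    rw [mul_assoc, h']; group
  have e2 : y = x ^ 2 * y * x ^ 2 := by
    have h : y * x ^ 2 * y⁻¹ = (x ^ 2)⁻¹ := eq_inv_of_mul_eq_one_left h2
    have h' : y * x ^ 2 = (x ^ 2)⁻¹ * y := by rw [← h]; group
    rw [mul_assoc, h']; group
  have e3 : x * (y * (x ^ 4 * (y * (x ^ 3 * y ^ 2)))) = 1 := by
    have s1 : x⁻¹ * y = x * y * x ^ 2 := by
      conv_lhs => rw [e2]
      group
    have s2 : x⁻¹ * (y * (x ^ 2 * y * x ^ 2) * x * y ^ 2) = 1 := by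
      rw [← e2]
      have : y * y * x * y ^ 2 = x := by
        rw [← pow_two]; exact e1.symm
      rw [this, inv_mul_cancel]
    calc x * (y * (x ^ 4 * (y * (x ^ 3 * y ^ 2)))) =
        (x * y * x ^ 2) * (x ^ 2 * y * x ^ 2) * x * y ^ 2 := by group
      _ = (x⁻¹ * y) * (x ^ 2 * y * x ^ 2) * x * y ^ 2 := by rw [← s1]
      _ = x⁻¹ * (y * (x ^ 2 * y * x ^ 2) * x * y ^ 2) := by group
      _ = 1 := s2
  have pw : ∀ a : G, o.le 1 a → ∀ n : ℕ, o.le 1 (a ^ n) := by
    intro a ha n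
    induction n with
    | zero => rw [pow_zero]
    | succ n ih => rw [pow_succ]; exact mul_pos _ _ ih ha
  have hw : o.le 1 (y * (x ^ 4 * (y * (x ^ 3 * y ^ 2)))) :=
    mul_pos _ _ hy (mul_pos _ _ (pw x hx 4) (mul_pos _ _ hy (mul_pos _ _ (pw x hx 3) (pw y hy 2))))
  generalize y * (x ^ 4 * (y * (x ^ 3 * y ^ 2))) = w at e3 hw
  have h3 := ho 1 x w hx
  rw [one_mul, e3] at h3
  have h4 : w = 1 := o.le_antisymm _ _ h3 hw
  rw [h4, mul_one] at e3
  exact hx1 e3

lemma HW_not_rightOrderable : ¬ RightOrderable HW := by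
  rintro ⟨o, ho⟩
  have hx1 : hx ≠ 1 := by
    intro h
    have := congrArg (fun g : HW => g.1.1) h
    have h2 : r (n := 0) 1 = r 0 := this
    injection h2 with h3
    exact absurd (show (1 : ℤ) = 0 from h3) (by decide)
  have hy1 : hy ≠ 1 := by
    intro h
    have := congrArg (fun g : HW => g.1.2.1) h
    have h2 : r (n := 0) 1 = r 0 := this
    injection h2 with h3
    exact absurd (show (1 : ℤ) = 0 from h3) (by decide)
  have inv_of : ∀ x : HW, ¬ o.le 1 x → o.le 1 x⁻¹ := by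
    intro x hx
    have h1 : o.le x 1 := (o.le_total 1 x).resolve_left hx
    have := ho x 1 x⁻¹ h1
    rwa [mul_inv_cancel, one_mul] at this
  have r1 := rel1
  have r2 := rel2
  generalize hx = x at *
  generalize hy = y at *
  -- invariance of the relations under inversion of one of the elements
  have inv1 : ∀ a b : HW, a * b ^ 2 * a⁻¹ * b ^ 2 = 1 → a⁻¹ * b ^ 2 * a⁻¹⁻¹ * b ^ 2 = 1 := by
    intro a b h
    have h' : a * b ^ 2 * a⁻¹ = (b ^ 2)⁻¹ := eq_inv_of_mul_eq_one_left h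
    have h'' : b ^ 2 = a⁻¹ * (b ^ 2)⁻¹ * a := by rw [← h']; group
    calc a⁻¹ * b ^ 2 * a⁻¹⁻¹ * b ^ 2 = (a⁻¹ * b ^ 2 * a) * b ^ 2 := by group
      _ = (a⁻¹ * b ^ 2 * a) * (a⁻¹ * (b ^ 2)⁻¹ * a) := by rw [← h'']
      _ = 1 := by group
  have inv2 : ∀ a b : HW, a * b ^ 2 * a⁻¹ * b ^ 2 = 1 → a * b⁻¹ ^ 2 * a⁻¹ * b⁻¹ ^ 2 = 1 := by
    intro a b h
    have h' : a * b ^ 2 * a⁻¹ = (b ^ 2)⁻¹ := eq_inv_of_mul_eq_one_left h
    calc a * b⁻¹ ^ 2 * a⁻¹ * b⁻¹ ^ 2 = (a * b ^ 2 * a⁻¹)⁻¹ * b⁻¹ ^ 2 := by group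
      _ = ((b ^ 2)⁻¹)⁻¹ * b⁻¹ ^ 2 := by rw [h']
      _ = 1 := by group
  by_cases h1 : o.le 1 x <;> by_cases h2 : o.le 1 y
  · exact pos_word o ho x y h1 h2 hx1 r1 r2
  · exact pos_word o ho x y⁻¹ h1 (inv_of y h2) hx1 (inv2 _ _ r1) (inv1 _ _ r2)
  · exact pos_word o ho x⁻¹ y (inv_of x h1) h2 (by simpa using hx1) (inv1 _ _ r1) (inv2 _ _ r2)
  · exact pos_word o ho x⁻¹ y⁻¹ (inv_of x h1) (inv_of y h2) (by simpa using hx1)
      (inv2 _ _ (inv1 _ _ r1)) (inv1 _ _ (inv2 _ _ r2))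

end Pool.Agent.H83.Ord
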