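import Pool.Agent.H83.Ord.Nilp

set_option autoImplicit false

/-!
# Epimorphisms from free groups onto finite nilpotent groups with prescribed abelianised values
-/

namespace Pool.Agent.H83.Ord

/-- For `m` vectors of `ℤ ^ k` there is a surjection onto `ℤ ^ n` killing them, if `m + n ≤ k`. -/
lemma exists_surj_killing {m n k : ℕ} (h : m + n ≤ k) (v : Fin m → (Fin k → ℤ)) :
    ∃ μ : (Fin k → ℤ) →ₗ[ℤ] (Fin n → ℤ), (∀ j, μ (v j) = 0) ∧
      ∃ σ : (Fin n → ℤ) →ₗ[ℤ] (Fin k → ℤ), ∀ y, μ (σ y) = y := by
  classical
  obtain ⟨d, snf⟩ := Submodule.smithNormalForm (Pi.basisFun ℤ (Fin k)) (Submodule.span ℤ (Set.range v))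
  have hd : d ≤ m := by
    have h1 : Module.finrank ℤ (Submodule.span ℤ (Set.range v)) = d := by
      rw [Module.finrank_eq_card_basis snf.bN, Fintype.card_fin]
    have h2 : (Set.range v).finrank ℤ ≤ Fintype.card (Fin m) := finrank_range_le_card v
    rw [Fintype.card_fin] at h2
    rw [← h1]; exact h2
  have hcard : n ≤ Fintype.card {i : Fin k // i ∉ Set.range snf.f} := by
    have h1 : Fintype.card {i : Fin k // i ∉ Set.range snf.f} =
        Fintype.card (Fin k) - Fintype.card {i : Fin k // i ∈ Set.range snf.f} :=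
      Fintype.card_subtype_compl _
    have h2 : Fintype.card {i : Fin k // i ∈ Set.range snf.f} = d := by
      have := Fintype.card_congr (Equiv.ofInjective snf.f snf.f.injective)
      rw [Fintype.card_fin] at this
      exact this.symm
    rw [h1, h2, Fintype.card_fin]
    omega
  obtain ⟨e⟩ : Nonempty (Fin n ↪ {i : Fin k // i ∉ Set.range snf.f}) := by
    apply Function.Embedding.nonempty_of_card_le
    rw [Fintype.card_fin]; exact hcard
  refine ⟨LinearMap.pi fun j => snf.bM.coord (e j).1, ?_, (Pi.basisFun ℤ (Fin n)).constr ℤ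
    (fun j => snf.bM (e j).1), ?_⟩
  · intro j
    ext i
    have := snf.le_ker_coord_of_notMem_range (e i).2
      (Submodule.subset_span (⟨j, rfl⟩ : v j ∈ Set.range v))
    simpa using this
  · intro y
    ext i
    rw [Module.Basis.constr_apply_fintype]
    simp only [LinearMap.pi_apply, Module.Basis.coord_apply, map_sum, map_smul,
      Module.Basis.repr_self, smul_eq_mul, Finsupp.single_apply, Module.Basis.equivFun_apply, Pi.basisFun_repr]
    rw [Finset.sum_eq_single i]
    · simp
    · intro b _ hb
      have : (e b).1 ≠ (e i).1 := fun h => hb (e.injective (Subtype.ext h))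
      simp [this]
    · simp

variable {k : ℕ}

/-- Abelianisation of the free group as integer vectors. -/
noncomputable def alph (k : ℕ) : FreeGroup (Fin k) →* Multiplicative (Fin k → ℤ) :=
  FreeGroup.lift fun j => Multiplicative.ofAdd (Pi.single j 1)

lemma alph_surj (z : Fin k → ℤ) : ∃ w, Multiplicative.toAdd (alph k w) = z := by
  refine ⟨(List.ofFn fun j => FreeGroup.of j ^ z j).prod, ?_⟩
  rw [map_list_prod, List.map_ofFn, List.prod_ofFn]
  simp only [Function.comp_def, map_zpow, alph, FreeGroup.lift_apply_of]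
  rw [toAdd_prod]
  simp only [toAdd_zpow, toAdd_ofAdd]
  ext i
  rw [Finset.sum_apply, Finset.sum_eq_single i]
  · simp
  · intro b _ hb
    simp [hb.symm]
  · simp

/-- Key lemma. -/
lemma exists_epi {Q : Type} [Group Q] [Finite Q] [Group.IsNilpotent Q] {m : ℕ}
    (h : m + Nat.card Q ≤ k) (v : Fin m → FreeGroup (Fin k)) (f₀ : FreeGroup (Fin k) →* Q)
    (e : Abelianization Q →* Abelianization Q) :
    ∃ f' : FreeGroup (Fin k) →* Q, Function.Surjective f' ∧
      ∀ w ∈ Subgroup.closure (Set.range v), (Abelianization.of (f' w) : Abelianization Q) =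
        e (Abelianization.of (f₀ w)) := by
  classical
  obtain ⟨μ, hμ, σ, hσ⟩ := exists_surj_killing h (fun j => Multiplicative.toAdd (alph k (v j)))
  let f0 : (Fin k → ℤ) →ₗ[ℤ] Additive (Abelianization Q) :=
    (Pi.basisFun ℤ (Fin k)).constr ℤ
      (fun j => Additive.ofMul (Abelianization.of (f₀ (FreeGroup.of j))))
  have hf0 : ∀ w, f0 (Multiplicative.toAdd (alph k w)) = Additive.ofMul (Abelianization.of (f₀ w)) := by
    intro w
    have : (AddMonoidHom.toMultiplicativeLeft f0.toAddMonoidHom).comp (alph k) =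
        (Abelianization.of : Q →* Abelianization Q).comp f₀ := by
      apply FreeGroup.ext_hom
      intro j
      simp only [MonoidHom.comp_apply, alph, FreeGroup.lift_apply_of]
      show Additive.toMul (f0 (Pi.single j 1)) = _
      have h2 : (Pi.single j (1:ℤ) : Fin k → ℤ) = Pi.basisFun ℤ (Fin k) j := by
        rw [Pi.basisFun_apply]
      rw [h2, Module.Basis.constr_basis]
      rfl
    exact DFunLike.congr_fun this w
  let en : Fin (Nat.card Q) ≃ Q := (Finite.equivFin Q).symm
  let g : (Fin (Nat.card Q) → ℤ) →ₗ[ℤ] Additive (Abelianization Q) :=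
    (Pi.basisFun ℤ (Fin (Nat.card Q))).constr ℤ (fun j => Additive.ofMul (Abelianization.of (en j)))
  have hg : ∀ a : Abelianization Q, ∃ y, g y = Additive.ofMul a := by
    intro a
    obtain ⟨x, rfl⟩ := abel_of_surjective a
    refine ⟨Pi.basisFun ℤ _ (en.symm x), ?_⟩
    rw [Module.Basis.constr_basis, Equiv.apply_symm_apply]
  let e' : Additive (Abelianization Q) →ₗ[ℤ] Additive (Abelianization Q) :=
    (MonoidHom.toAdditive e).toIntLinearMap
  let F' : (Fin k → ℤ) →ₗ[ℤ] Additive (Abelianization Q) :=
    e' ∘ₗ f0 ∘ₗ (LinearMap.id - σ ∘ₗ μ) + g ∘ₗ μ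
  have hF' : ∀ z, F' z = e' (f0 (z - σ (μ z))) + g (μ z) := fun z => rfl
  have hF'surj : ∀ a : Abelianization Q, ∃ z, F' z = Additive.ofMul a := by
    intro a
    obtain ⟨y, hy⟩ := hg a
    refine ⟨σ y, ?_⟩
    rw [hF', hσ, sub_self, map_zero, map_zero, zero_add, hy]
  choose s hs using (abel_of_surjective (G := Q))
  let f' : FreeGroup (Fin k) →* Q := FreeGroup.lift fun j => s (Additive.toMul (F' (Pi.single j 1)))
  have hf' : ∀ w, Additive.ofMul (Abelianization.of (f' w)) = F' (Multiplicative.toAdd (alph k w)) := by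
    intro w
    have : (Abelianization.of : Q →* Abelianization Q).comp f' =
        (AddMonoidHom.toMultiplicativeLeft F'.toAddMonoidHom).comp (alph k) := by
      apply FreeGroup.ext_hom
      intro j
      simp only [MonoidHom.comp_apply, alph, FreeGroup.lift_apply_of, f']
      rw [hs]
      rfl
    exact DFunLike.congr_fun this w
  refine ⟨f', ?_, ?_⟩
  · rw [← MonoidHom.range_eq_top]
    apply eq_top_of_sup_commutator
    rw [eq_top_iff]
    intro x _
    obtain ⟨z, hz⟩ := hF'surj (Abelianization.of x)
    obtain ⟨w, hw⟩ := alph_surj z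
    have h1 : (Abelianization.of (f' w) : Abelianization Q) = Abelianization.of x := by
      have := hf' w
      rw [hw, hz] at this
      exact Additive.ofMul.injective this
    have h2 : (f' w)⁻¹ * x ∈ commutator Q := by
      rw [← QuotientGroup.eq]
      exact h1
    have h3 : x = f' w * ((f' w)⁻¹ * x) := by group
    rw [h3]
    exact mul_mem (Subgroup.mem_sup_left ⟨w, rfl⟩) (Subgroup.mem_sup_right h2)
  · have hμ' : ∀ w ∈ Subgroup.closure (Set.range v), μ (Multiplicative.toAdd (alph k w)) = 0 := by
      intro w hw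
      induction hw using Subgroup.closure_induction with
      | mem x hx => obtain ⟨j, rfl⟩ := hx; exact hμ j
      | one => rw [map_one, toAdd_one, map_zero]
      | mul x y _ _ hx hy => rw [map_mul, toAdd_mul, map_add, hx, hy, add_zero]
      | inv x _ hx => rw [map_inv, toAdd_inv, map_neg, hx, neg_zero]
    intro w hw
    have := hf' w
    rw [hF', hμ' w hw, map_zero, map_zero, sub_zero, add_zero, hf0] at this
    exact Additive.ofMul.injective this

end Pool.Agent.H83.Ord
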