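import Pool.Agent.H83.Ord.Basic

set_option autoImplicit false

/-!
# Two facts on nilpotent groups
-/

namespace Pool.Agent.H83.Ord

open Subgroup
open scoped commutatorElement

lemma abel_of_surjective {G : Type*} [Group G] :
    Function.Surjective (Abelianization.of : G →* Abelianization G) :=
  QuotientGroup.mk'_surjective _

/-- In a nilpotent group a subgroup which together with the commutator subgroup generates
everything is the whole group. -/
lemma eq_top_of_sup_commutator {Q : Type*} [Group Q] [Group.IsNilpotent Q] (H : Subgroup Q)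
    (hH : H ⊔ commutator Q = ⊤) : H = ⊤ := by
  have key : ∀ n : ℕ, H ⊔ Subgroup.lowerCentralSeries (⊤ : Subgroup Q) n = ⊤ := by
    intro n
    induction n with
    | zero => rw [Subgroup.lowerCentralSeries_zero, sup_top_eq]
    | succ n ih =>
      set C := Subgroup.lowerCentralSeries (⊤ : Subgroup Q) (n + 1) with hC
      have hCn : C.Normal := inferInstance
      have hcen : ∀ c ∈ Subgroup.lowerCentralSeries (⊤ : Subgroup Q) n, ∀ x : Q,
          QuotientGroup.mk' C c * QuotientGroup.mk' C x = QuotientGroup.mk' C x * QuotientGroup.mk' C c := by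
        intro c hc x
        have h1 : ⁅c, x⁆ ∈ C := by
          rw [hC, Subgroup.lowerCentralSeries_succ]
          exact commutator_mem_commutator hc (mem_top x)
        have h2 : QuotientGroup.mk' C ⁅c, x⁆ = 1 := (QuotientGroup.eq_one_iff _).2 h1
        rw [map_commutatorElement, commutatorElement_eq_one_iff_mul_comm] at h2
        exact h2
      have hle : commutator Q ≤ H ⊔ C := by
        rw [commutator_eq_closure, closure_le]
        rintro _ ⟨a, g, rfl⟩
        have ha : a ∈ H ⊔ Subgroup.lowerCentralSeries (⊤ : Subgroup Q) n := by rw [ih]; exact mem_top a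
        have hg : g ∈ H ⊔ Subgroup.lowerCentralSeries (⊤ : Subgroup Q) n := by rw [ih]; exact mem_top g
        obtain ⟨h, hh, c, hc, rfl⟩ := mem_sup_of_normal_right.1 ha
        obtain ⟨h', hh', c', hc', rfl⟩ := mem_sup_of_normal_right.1 hg
        have e1 : QuotientGroup.mk' C ⁅h * c, h' * c'⁆ = QuotientGroup.mk' C ⁅h, h'⁆ := by
          simp only [map_commutatorElement, map_mul]
          have q1 := hcen c hc
          have q2 := hcen c' hc'
          have z1 : ∀ y : Q ⧸ C, QuotientGroup.mk' C c * y = y * QuotientGroup.mk' C c := by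
            intro y
            obtain ⟨x, rfl⟩ := QuotientGroup.mk'_surjective C y
            exact q1 x
          have z2 : ∀ y : Q ⧸ C, QuotientGroup.mk' C c' * y = y * QuotientGroup.mk' C c' := by
            intro y
            obtain ⟨x, rfl⟩ := QuotientGroup.mk'_surjective C y
            exact q2 x
          generalize QuotientGroup.mk' C c = u at z1
          generalize QuotientGroup.mk' C c' = u' at z2
          generalize QuotientGroup.mk' C h = t
          generalize QuotientGroup.mk' C h' = t'
          rw [commutatorElement_def, commutatorElement_def, mul_inv_rev, mul_inv_rev]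
          have s1 : t * u * (t' * u') * (u⁻¹ * t⁻¹) * (u'⁻¹ * t'⁻¹) =
              t * (u * (t' * u')) * u⁻¹ * t⁻¹ * (u'⁻¹ * t'⁻¹) := by group
          rw [s1, z1 (t' * u')]
          have s2 : t * (t' * u' * u) * u⁻¹ * t⁻¹ * (u'⁻¹ * t'⁻¹) =
              t * t' * (u' * t⁻¹) * u'⁻¹ * t'⁻¹ := by group
          rw [s2, z2 t⁻¹]
          group
        have e2 : (⁅h, h'⁆)⁻¹ * ⁅h * c, h' * c'⁆ ∈ C := by
          rw [← QuotientGroup.eq_one_iff]
          have : ((( ⁅h, h'⁆)⁻¹ * ⁅h * c, h' * c'⁆ : Q) : Q ⧸ C) =
              (QuotientGroup.mk' C ⁅h, h'⁆)⁻¹ * QuotientGroup.mk' C ⁅h * c, h' * c'⁆ := rfl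
          rw [this, e1, inv_mul_cancel]
        have e3 : ⁅h * c, h' * c'⁆ = ⁅h, h'⁆ * ((⁅h, h'⁆)⁻¹ * ⁅h * c, h' * c'⁆) := by group
        rw [SetLike.mem_coe, e3]
        refine mul_mem (mem_sup_left ?_) (mem_sup_right e2)
        rw [commutatorElement_def]
        exact H.mul_mem (H.mul_mem (H.mul_mem hh hh') (H.inv_mem hh)) (H.inv_mem hh')
      rw [eq_top_iff, ← hH]
      exact sup_le le_sup_left hle
  obtain ⟨n, hn⟩ := Subgroup.nilpotent_iff_lowerCentralSeries.1 (inferInstance : Group.IsNilpotent Q)
  have h := key n
  rw [hn, sup_bot_eq] at h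
  exact h

/-- A finitely generated nilpotent group without homomorphisms onto `ℤ` is finite. -/
lemma NoZ.finite_of_nilpotent (N : Type*) [Group N] [Group.IsNilpotent N] (hfg : Group.FG N)
    (h : NoZ N) : Finite N := by
  refine Group.nilpotent_center_quotient_ind
    (P := fun G _ _ => Group.FG G → NoZ G → Finite G) N ?_ ?_ hfg h
  · intro G _ _ _ _; infer_instance
  · intro G _ _ ih hfg h
    have h1 : Finite (G ⧸ center G) := ih inferInstance
      (noZ_of_surjective (QuotientGroup.mk' (center G)) (QuotientGroup.mk'_surjective _) h)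
    have hfi : (center G).FiniteIndex := finiteIndex_of_finite_quotient
    have h2 : Finite (Abelianization G) := by
      refine NoZ.finite_of_comm ?_ (noZ_of_surjective (Abelianization.of) (abel_of_surjective) h)
      exact Group.fg_of_surjective (f := (Abelianization.of : G →* Abelianization G))
        abel_of_surjective
    have h3 : Finite (commutatorSet G) := by
      have hr : commutatorSet G ⊆ Set.range (fun p : (G ⧸ center G) × (G ⧸ center G) =>
          ⁅Quotient.out p.1, Quotient.out p.2⁆) := by
        rintro _ ⟨a, b, rfl⟩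
        refine ⟨((a : G ⧸ center G), (b : G ⧸ center G)), ?_⟩
        obtain ⟨u, hu⟩ := QuotientGroup.mk_out_eq_mul (center G) a
        obtain ⟨v, hv⟩ := QuotientGroup.mk_out_eq_mul (center G) b
        show ⁅Quotient.out (a : G ⧸ center G), Quotient.out (b : G ⧸ center G)⁆ = ⁅a, b⁆
        rw [hu, hv]
        have cu : ∀ y : G, u.1 * y = y * u.1 := fun y => (mem_center_iff.1 u.2 y).symm
        have cv : ∀ y : G, v.1 * y = y * v.1 := fun y => (mem_center_iff.1 v.2 y).symm
        generalize u.1 = u' at cu
        generalize v.1 = v' at cv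
        rw [commutatorElement_def, commutatorElement_def, mul_inv_rev, mul_inv_rev]
        have s1 : a * u' * (b * v') * (u'⁻¹ * a⁻¹) * (v'⁻¹ * b⁻¹) =
            a * (u' * (b * v')) * u'⁻¹ * a⁻¹ * (v'⁻¹ * b⁻¹) := by group
        rw [s1, cu (b * v')]
        have s2 : a * (b * v' * u') * u'⁻¹ * a⁻¹ * (v'⁻¹ * b⁻¹) =
            a * b * (v' * a⁻¹) * v'⁻¹ * b⁻¹ := by group
        rw [s2, cv a⁻¹]
        group
      exact ((Set.finite_range _).subset hr).to_subtype
    have h4 : Finite (commutator G) := inferInstance
    have h5 : (commutator G).FiniteIndex := by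
      have : Finite (G ⧸ commutator G) := h2
      exact finiteIndex_of_finite_quotient
    exact Nat.finite_of_card_ne_zero (by
      rw [← (commutator G).card_mul_index]
      exact mul_ne_zero Nat.card_pos.ne' h5.index_ne_zero)

end Pool.Agent.H83.Ord
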