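import Pool.Agent.H83.Ord.Core
import Pool.Agent.H83.Ord.Key
import Pool.Agent.H83.Ord.Endo

set_option autoImplicit false

/-!
# The subgroup of a finite power
-/

namespace Pool.Agent.H83.Ord

section

variable {G Q : Type} [Group G] [Group Q] {q : G →* Q} (hC : Core G Q q) (k : ℕ)

/-- Lifts of homomorphisms. -/
noncomputable def Core.lft (hC : Core G Q q) {k : ℕ} (f : FreeGroup (Fin k) →* Q) :
    FreeGroup (Fin k) →* G :=
  FreeGroup.lift fun j => Function.surjInv hC.surj (f (FreeGroup.of j))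

lemma Core.q_lft {k : ℕ} (f : FreeGroup (Fin k) →* Q) (w : FreeGroup (Fin k)) :
    q (hC.lft f w) = f w := by
  have : q.comp (hC.lft f) = f := by
    apply FreeGroup.ext_hom
    intro j
    simp only [MonoidHom.comp_apply, Core.lft, FreeGroup.lift_apply_of]
    exact Function.surjInv_eq hC.surj _
  exact DFunLike.congr_fun this w

/-- The index set: surjective homomorphisms to `Q`. -/
abbrev Idx (Q : Type) [Group Q] (k : ℕ) : Type :=
  {f : FreeGroup (Fin k) →* Q // Function.Surjective f}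

lemma finite_idx (Q : Type) [Group Q] [Finite Q] (k : ℕ) : Finite (Idx Q k) := by
  have : Finite (FreeGroup (Fin k) →* Q) :=
    Finite.of_equiv (Fin k → Q) FreeGroup.lift
  infer_instance

/-- The diagonal homomorphism. -/
noncomputable def Core.Phi : FreeGroup (Fin k) →* (Idx Q k → G) :=
  MonoidHom.pi fun i => hC.lft i.1

lemma Core.q_Phi (w : FreeGroup (Fin k)) (i : Idx Q k) : q (hC.Phi k w i) = i.1 w :=
  hC.q_lft i.1 w

/-- The kernel part of the image. -/
noncomputable def Core.BE : Subgroup (hC.Phi k).range :=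
  ((MonoidHom.pi fun i => q.comp (Pi.evalMonoidHom (fun _ : Idx Q k => G) i)).comp
    (hC.Phi k).range.subtype : (hC.Phi k).range →* (Idx Q k → Q)).ker

lemma Core.mem_BE (b : (hC.Phi k).range) : b ∈ hC.BE k ↔ ∀ i, q (b.1 i) = 1 := by
  unfold Core.BE
  rw [MonoidHom.mem_ker]
  constructor
  · intro h i
    exact congrFun h i
  · intro h
    funext i
    exact h i

lemma Core.BE_normal : (hC.BE k).Normal := by
  unfold Core.BE; infer_instance

lemma Core.BE_finiteIndex : (hC.BE k).FiniteIndex := by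
  have := hC.fin
  have := finite_idx Q k
  unfold Core.BE; exact Subgroup.finiteIndex_ker _

lemma Core.BE_comm : ∀ a ∈ hC.BE k, ∀ b ∈ hC.BE k, a * b = b * a := by
  intro a ha b hb
  rw [Core.mem_BE] at ha hb
  apply Subtype.ext
  funext i
  exact hC.comm _ _ (ha i) (hb i)

lemma Core.BE_fix : ∀ b ∈ hC.BE k, (∀ g, g * b = b * g) → b = 1 := by
  intro b hb hcen
  rw [Core.mem_BE] at hb
  apply Subtype.ext
  funext i
  show b.1 i = 1
  apply hC.central_eq_one
  intro g
  obtain ⟨w, hw⟩ := i.2 (q g)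
  have h1 : q ((hC.Phi k w i)⁻¹ * g) = 1 := by
    rw [map_mul, map_inv, hC.q_Phi, hw, inv_mul_cancel]
  have h2 := hC.comm _ _ (hb i) h1
  have h3 : hC.Phi k w i * b.1 i = b.1 i * hC.Phi k w i :=
    congrFun (congrArg Subtype.val (hcen ⟨hC.Phi k w, ⟨w, rfl⟩⟩)) i
  calc g * b.1 i = hC.Phi k w i * (((hC.Phi k w i)⁻¹ * g) * b.1 i) := by group
    _ = hC.Phi k w i * (b.1 i * ((hC.Phi k w i)⁻¹ * g)) := by rw [h2]
    _ = (hC.Phi k w i * b.1 i) * ((hC.Phi k w i)⁻¹ * g) := by group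
    _ = (b.1 i * hC.Phi k w i) * ((hC.Phi k w i)⁻¹ * g) := by rw [h3]
    _ = b.1 i * g := by group

include hC in
/-- There is a surjection if `k` is at least the order of `Q`. -/
lemma Core.exists_idx (hk : Nat.card Q ≤ k) : Nonempty (Idx Q k) := by
  have := hC.fin
  have hne : Nonempty Q := ⟨1⟩
  let e : Fin (Nat.card Q) ≃ Q := (Finite.equivFin Q).symm
  refine ⟨⟨FreeGroup.lift fun j => if h : j.1 < Nat.card Q then e ⟨j.1, h⟩ else 1, ?_⟩⟩
  intro x
  refine ⟨FreeGroup.of ⟨(e.symm x).1, lt_of_lt_of_le (e.symm x).2 hk⟩, ?_⟩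
  rw [FreeGroup.lift_apply_of]
  simp

lemma Core.fg_range : Group.FG (hC.Phi k).range := Group.fg_range _

lemma Core.exists_ne_one (hk : Nat.card Q ≤ k) : ∃ x : (hC.Phi k).range, x ≠ 1 := by
  obtain ⟨i⟩ := hC.exists_idx k hk
  have := hC.nontrivial_Q
  obtain ⟨y, hy⟩ := exists_ne (1 : Q)
  obtain ⟨w, hw⟩ := i.2 y
  refine ⟨⟨hC.Phi k w, ⟨w, rfl⟩⟩, ?_⟩
  intro h
  have h1 : hC.Phi k w i = 1 := congrFun (congrArg Subtype.val h) i
  have h2 := hC.q_Phi k w i
  rw [h1, hw, map_one] at h2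
  exact hy h2.symm

lemma Core.exists_BE_ne_one (hk : Nat.card Q ≤ k) : ∃ b ∈ hC.BE k, b ≠ 1 := by
  obtain ⟨x, hx⟩ := hC.exists_ne_one k hk
  have := hC.BE_normal k
  have hfi := hC.BE_finiteIndex k
  refine ⟨x ^ (hC.BE k).index, (hC.BE k).pow_index_mem x, ?_⟩
  intro h
  apply hx
  apply Subtype.ext
  funext i
  refine hC.tf _ _ (Nat.one_le_iff_ne_zero.2 hfi.index_ne_zero) ?_
  exact congrFun (congrArg Subtype.val h) i

/-- The image is not right-orderable. -/
lemma Core.not_rightOrderable (hk : Nat.card Q ≤ k) : ¬ RightOrderable (hC.Phi k).range := by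
  rintro ⟨o, ho⟩
  have := hC.BE_normal k
  have := hC.BE_finiteIndex k
  exact not_right_orderable_of_no_central (hC.BE k) (hC.BE_comm k) (hC.fg_range k) (hC.BE_fix k)
    (hC.exists_BE_ne_one k hk) o ho

/-- Subgroups of the image with few generators are locally indicable. -/
lemma Core.locallyIndicable {m : ℕ} (hm : m + Nat.card Q ≤ k) (W : Type) [Group W]
    (ψ : W →* (Idx Q k → G)) (hψ : Function.Injective ψ) (v : Fin m → FreeGroup (Fin k))
    (hv : ∀ x : W, ∃ w ∈ Subgroup.closure (Set.range v), hC.Phi k w = ψ x) :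
    LocallyIndicable W := by
  have hfin := hC.fin
  have hnil := hC.nilp
  intro Z hZ hZ1
  by_contra hcon
  have hN : NoZ Z := fun f hf => hcon ⟨f, hf⟩
  -- the images in the coordinates
  have himg : ∀ i : Idx Q k, (∃ z ∈ Z, ψ z i ≠ 1) → ∀ y : Q, ∃ z ∈ Z, q (ψ z i) = y := by
    intro i hi y
    let φ : W →* G := (Pi.evalMonoidHom (fun _ : Idx Q k => G) i).comp ψ
    have hZi : (Z.map φ).FG := by
      have h1 : Group.FG Z := (Group.fg_iff_subgroup_fg Z).2 hZ
      exact (Group.fg_iff_subgroup_fg _).1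
        (Group.fg_of_surjective (f := φ.subgroupMap Z) (φ.subgroupMap_surjective Z))
    have hZi1 : Z.map φ ≠ ⊥ := by
      obtain ⟨z, hz, hz1⟩ := hi
      intro h
      apply hz1
      have : φ z ∈ Z.map φ := ⟨z, hz, rfl⟩
      rw [h] at this
      exact this
    have hZiN : NoZ (Z.map φ) :=
      noZ_of_surjective (φ.subgroupMap Z) (φ.subgroupMap_surjective Z) hN
    have htop := hC.min _ hZi hZi1 hZiN
    have hy : y ∈ (Z.map φ).map q := by rw [htop]; trivial
    obtain ⟨_, ⟨z, hz, rfl⟩, hzy⟩ := hy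
    exact ⟨z, hz, hzy⟩
  -- a nontrivial coordinate
  obtain ⟨i₀, hi₀⟩ : ∃ i : Idx Q k, ∃ z ∈ Z, ψ z i ≠ 1 := by
    by_contra hcon2
    push Not at hcon2
    apply hZ1
    rw [Subgroup.eq_bot_iff_forall]
    intro z hz
    apply hψ
    rw [map_one]
    funext i
    exact hcon2 i z hz
  obtain ⟨e, ⟨x, hx⟩, hes⟩ := hC.exists_endo
  obtain ⟨f', hf's, hf'⟩ := exists_epi hm v i₀.1 e
  let i₁ : Idx Q k := ⟨f', hf's⟩
  have hrel : ∀ z : W, (Abelianization.of (q (ψ z i₁)) : Abelianization Q) =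
      e (Abelianization.of (q (ψ z i₀))) := by
    intro z
    obtain ⟨w, hw, hwz⟩ := hv z
    rw [← hwz, hC.q_Phi, hC.q_Phi]
    exact hf' w hw
  have hi₁ : ∃ z ∈ Z, ψ z i₁ ≠ 1 := by
    obtain ⟨y, hy⟩ := abel_of_surjective x
    obtain ⟨z, hz, hzy⟩ := himg i₀ hi₀ y
    refine ⟨z, hz, fun h => hx ?_⟩
    have h1 := hrel z
    rw [h, hzy, hy, map_one, map_one] at h1
    exact h1.symm
  apply hes
  intro a
  obtain ⟨y, hy⟩ := abel_of_surjective a
  obtain ⟨z, hz, hzy⟩ := himg i₁ hi₁ y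
  refine ⟨Abelianization.of (q (ψ z i₀)), ?_⟩
  rw [← hrel z, hzy, hy]

end

end Pool.Agent.H83.Ord
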